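import Pool.Agent.Q32.Smp.Loc2

/-!
# The improvement at one height, for an abstract bound on the disc
-/

set_option autoImplicit false
open MeasureTheory Filter Topology Set Real

namespace Pool.Agent.Q32.Smp

theorem core3 {F : ℂ → ℂ} (hFd : Differentiable ℂ F) {T ℓ D q : ℝ} (hℓ : 0 ≤ ℓ) (hD0 : 0 ≤ D)
    {R κ μ c δ θ₁ γ h : ℝ} (hR : 0 < R) (hμ : 0 ≤ μ) (hc : 0 ≤ c) (hδ : 0 < δ) (hδ1 : δ ≤ 1)
    (hθ₁ : 0 < θ₁) (hγ0 : 0 < γ) (hγ : γ = 2 / θ₁ - 1 / π)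
    (hRμ : (2 * Real.log (6 / δ) / θ₁ + γ) * R ≤ μ - κ)
    (hq0 : 0 ≤ q) (hq : q ≤ γ / 4 * (R * ℓ))
    (hdisc : ∀ z : ℂ, ‖z‖ ≤ R →
      ‖F (1 / 2 + T * Complex.I + z * Complex.I) * Complex.exp ((ℓ / 2 : ℝ) * z * Complex.I)‖ ≤
        Real.exp (μ * ℓ + c + q + D + ℓ / 2 * |z.im|))
    {n : ℕ} (hn : 1 ≤ n) (hn1 : R * ℓ / θ₁ - 1 ≤ n) (hn2 : (n : ℝ) ≤ R * ℓ / θ₁)
    (hh : R = n * h) (x : ℕ → ℝ)
    (hx : ∀ i < n + n, -R + i * h + δ * h / 2 ≤ x i ∧ x i ≤ -R + (i + 1) * h - δ * h / 2)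
    (hxB : ∀ i < n + n, ‖F (1 / 2 + ((T + x i : ℝ) : ℂ) * Complex.I)‖ ≤ Real.exp (κ * ℓ + c)) :
    ‖F (1 / 2 + T * Complex.I)‖ ≤ (1 + 64 / (γ * θ₁) ^ 2) *
      Real.exp ((μ - γ / 2 * R) * ℓ + (c + 4 + D)) := by
  have hpi := Real.pi_pos
  have hnr : (1 : ℝ) ≤ n := by exact_mod_cast hn
  have hh0 : 0 < h := by
    by_contra hcon
    push Not at hcon
    have : (n : ℝ) * h ≤ 0 := mul_nonpos_of_nonneg_of_nonpos (by positivity) hcon
    linarith
  have hΛ : 0 < Real.log (6 / δ) := Real.log_pos (by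
    rw [lt_div_iff₀ hδ]; linarith)
  set f : ℂ → ℂ := fun z => F (1 / 2 + T * Complex.I + z * Complex.I) *
    Complex.exp ((ℓ / 2 : ℝ) * z * Complex.I) with hf
  have hfd : Differentiable ℂ f := (hFd.comp (by fun_prop)).mul (by fun_prop)
  have hRℓ : 0 ≤ R * ℓ := mul_nonneg hR.le hℓ
  set A : ℝ := μ * ℓ + c + q + D with hA
  have hA0 : 0 ≤ A := by rw [hA]; positivity
  have h6 : (6 / δ) ^ (n + n) ≤ Real.exp (2 * Real.log (6 / δ) / θ₁ * (R * ℓ)) := by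
    have e : (6 / δ) ^ (n + n) = Real.exp (((n + n : ℕ) : ℝ) * Real.log (6 / δ)) := by
      rw [Real.exp_nat_mul, Real.exp_log (by positivity)]
    rw [e]
    apply Real.exp_le_exp.2
    push_cast
    have h1 := mul_le_mul_of_nonneg_right hn2 hΛ.le
    have e2 : 2 * Real.log (6 / δ) / θ₁ * (R * ℓ) = 2 * (R * ℓ / θ₁ * Real.log (6 / δ)) := by ring
    rw [e2]
    linarith
  have hRμℓ : 2 * Real.log (6 / δ) / θ₁ * (R * ℓ) + γ * (R * ℓ) ≤ (μ - κ) * ℓ := by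
    have := mul_le_mul_of_nonneg_right hRμ hℓ
    linarith
  have hγR : 0 ≤ γ * (R * ℓ) := by positivity
  have hbA : Real.exp (κ * ℓ + c) * (6 / δ) ^ (n + n) ≤
      Real.exp ((μ - γ / 2 * R) * ℓ + c) := by
    calc Real.exp (κ * ℓ + c) * (6 / δ) ^ (n + n)
        ≤ Real.exp (κ * ℓ + c) * Real.exp (2 * Real.log (6 / δ) / θ₁ * (R * ℓ)) :=
          mul_le_mul_of_nonneg_left h6 (Real.exp_pos _).le
      _ = Real.exp (κ * ℓ + c + 2 * Real.log (6 / δ) / θ₁ * (R * ℓ)) := by rw [← Real.exp_add]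
      _ ≤ _ := Real.exp_le_exp.2 (by linarith)
  have h1 := loc2 hfd hn hh0 hδ hδ1 hh x hx (A := A) (B := ℓ / 2) (b := Real.exp (κ * ℓ + c))
    hA0 (by positivity) (Real.exp_pos _).le (by
      intro i hi
      have h2 := hxB i hi
      have e : ‖f ((x i : ℝ) : ℂ)‖ = ‖F (1 / 2 + ((T + x i : ℝ) : ℂ) * Complex.I)‖ := by
        simp only [hf]
        rw [norm_mul, Complex.norm_exp]
        have e1 : (((ℓ / 2 : ℝ) : ℂ) * ((x i : ℝ) : ℂ) * Complex.I).re = 0 := by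
          rw [← Complex.ofReal_mul, Complex.re_ofReal_mul]
          simp
        rw [e1, Real.exp_zero, mul_one]
        congr 2
        push_cast
        ring
      rw [e]
      exact h2) (by
      refine hbA.trans (Real.exp_le_exp.2 ?_)
      rw [hA]
      linarith) (by
      intro z hz
      exact hdisc z hz)
  have e0 : ‖f 0‖ = ‖F (1 / 2 + T * Complex.I)‖ := by simp [hf]
  rw [e0] at h1
  refine h1.trans ?_
  set E : ℝ := Real.exp ((μ - γ / 2 * R) * ℓ + (c + 4 + D)) with hE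
  have a1 : Real.exp (κ * ℓ + c) * (6 / δ) ^ (n + n) ≤ E :=
    hbA.trans (Real.exp_le_exp.2 (by linarith))
  -- the main term
  set η : ℝ := γ * θ₁ / 4 with hη
  have hη0 : 0 < η := by positivity
  set y : ℝ := (n : ℝ) with hy
  have hy0 : 0 ≤ y := by linarith
  have hy2 : y ^ 2 ≤ 2 / η ^ 2 * Real.exp (η * y) := by
    have h2 := Real.quadratic_le_exp_of_nonneg (by positivity : 0 ≤ η * y)
    have h3 : (η * y) ^ 2 / 2 ≤ Real.exp (η * y) := by
      have : 0 ≤ η * y := by positivity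
      linarith
    have e : y ^ 2 = 2 / η ^ 2 * ((η * y) ^ 2 / 2) := by field_simp
    rw [e]
    exact mul_le_mul_of_nonneg_left h3 (by positivity)
  have hηy : η * y ≤ γ / 4 * (R * ℓ) := by
    have h2 := mul_le_mul_of_nonneg_left hn2 hη0.le
    have e : η * (R * ℓ / θ₁) = γ / 4 * (R * ℓ) := by rw [hη]; field_simp
    linarith
  have hexpn : (y * Real.exp (1 - y)) ^ 2 ≤
      2 / η ^ 2 * Real.exp (γ / 4 * (R * ℓ) + (4 - 2 * (R * ℓ / θ₁))) := by
    have e : (y * Real.exp (1 - y)) ^ 2 = y ^ 2 * Real.exp (2 - 2 * y) := by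
      rw [mul_pow, ← Real.exp_nat_mul]
      congr 2
      push_cast
      ring
    rw [e]
    calc y ^ 2 * Real.exp (2 - 2 * y) ≤ 2 / η ^ 2 * Real.exp (η * y) * Real.exp (2 - 2 * y) :=
          mul_le_mul_of_nonneg_right hy2 (Real.exp_pos _).le
      _ = 2 / η ^ 2 * Real.exp (η * y + (2 - 2 * y)) := by rw [mul_assoc, ← Real.exp_add]
      _ ≤ _ := by
          refine mul_le_mul_of_nonneg_left (Real.exp_le_exp.2 ?_) (by positivity)
          linarith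
  have a2 : 2 * Real.exp (A + 2 * (ℓ / 2) * R / π) * (y * Real.exp (1 - y)) ^ 2 ≤
      64 / (γ * θ₁) ^ 2 * E := by
    calc 2 * Real.exp (A + 2 * (ℓ / 2) * R / π) * (y * Real.exp (1 - y)) ^ 2
        ≤ 2 * Real.exp (A + 2 * (ℓ / 2) * R / π) *
          (2 / η ^ 2 * Real.exp (γ / 4 * (R * ℓ) + (4 - 2 * (R * ℓ / θ₁)))) :=
          mul_le_mul_of_nonneg_left hexpn (by positivity)
      _ = 4 / η ^ 2 * Real.exp (A + 2 * (ℓ / 2) * R / π + (γ / 4 * (R * ℓ) + (4 - 2 * (R * ℓ / θ₁)))) := by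
          rw [Real.exp_add (A + 2 * (ℓ / 2) * R / π)]
          ring
      _ ≤ 4 / η ^ 2 * E := by
          refine mul_le_mul_of_nonneg_left (Real.exp_le_exp.2 ?_) (by positivity)
          have e1 : 2 * (ℓ / 2) * R / π - 2 * (R * ℓ / θ₁) = -(γ * (R * ℓ)) := by
            rw [hγ]; field_simp; ring
          rw [hA]
          linarith
      _ = 64 / (γ * θ₁) ^ 2 * E := by
          rw [hη]
          congr 1
          field_simp
          ring
  have e3 : (1 + 64 / (γ * θ₁) ^ 2) * E = E + 64 / (γ * θ₁) ^ 2 * E := by ring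
  rw [e3]
  exact add_le_add a1 a2

end Pool.Agent.Q32.Smp
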