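import Pool.Agent.H983R4.GL.F3

/-!
# A bound on small discs with centre on the critical line

If `log⁺ |F(1/2 + ix)| ≤ k` for `|x - T| ≤ 1`, then `log⁺ |F| ≤ k + 3 R ℓ + O(1)` on the disc of radius
`R ≤ 1/2` about `1/2 + iT`; here `ℓ` is the logarithm of the conductor.
-/

set_option autoImplicit false
open MeasureTheory Filter Topology Set Real

namespace Pool.Agent.Q32.Smp

open Pool.Agent.H983R4.LH Pool.Agent.H983R4.GL

/-- the angles at which the cotangent may be large -/
def Sm (a : ℝ) : Set ℝ := Set.Ioc 0 (2 * π * a) ∪ Set.Ioc (2 * π - 2 * π * a) (2 * π)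

lemma Sm_meas (a : ℝ) : MeasurableSet (Sm a) := measurableSet_Ioc.union measurableSet_Ioc

lemma Sm_vol {a : ℝ} (ha : 0 < a) : volume (Sm a) ≤ ENNReal.ofReal (4 * π * a) := by
  have hpi := Real.pi_pos
  refine (measure_union_le _ _).trans ?_
  rw [Real.volume_Ioc, Real.volume_Ioc, ← ENNReal.ofReal_add (by nlinarith) (by nlinarith)]
  apply ENNReal.ofReal_le_ofReal
  linarith

lemma mem_Sm {a θ : ℝ} (ha : 0 < a) (h0 : 0 < θ) (h1 : θ < 2 * π) (h : 1 / (2 * a) < |ct θ|) :
    θ ∈ Sm a := by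
  have hpi := Real.pi_pos
  have hs := sin_half_pos h0 h1
  have h2 : |ct θ| ≤ 1 / Real.sin (θ / 2) := by
    unfold ct
    rw [abs_div, abs_of_pos hs]
    exact div_le_div_of_nonneg_right (Real.abs_cos_le_one _) hs.le
  have h3 : Real.sin (θ / 2) < 2 * a := by
    have h4 : 1 / (2 * a) < 1 / Real.sin (θ / 2) := lt_of_lt_of_le h h2
    exact (one_div_lt_one_div (by positivity) hs).1 h4
  rcases le_total (θ / 2) (π / 2) with h4 | h4
  · left
    have h5 := Real.mul_le_sin (x := θ / 2) (by linarith) h4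
    refine ⟨h0, ?_⟩
    have h6 : 2 / π * (θ / 2) = θ / π := by ring
    rw [h6] at h5
    have h7 : θ / π < 2 * a := lt_of_le_of_lt h5 h3
    rw [div_lt_iff₀ hpi] at h7
    linarith
  · right
    have h5 := Real.mul_le_sin (x := π - θ / 2) (by linarith) (by linarith)
    rw [Real.sin_pi_sub] at h5
    refine ⟨?_, h1.le⟩
    have h6 : 2 / π * (π - θ / 2) = (2 * π - θ) / π := by field_simp
    rw [h6] at h5
    have h7 : (2 * π - θ) / π < 2 * a := lt_of_le_of_lt h5 h3
    rw [div_lt_iff₀ hpi] at h7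
    linarith

variable {F : ℂ → ℂ} {T ℓ C m K : ℝ}

lemma pw (H : LD F T ℓ C m K) {k a t : ℝ} (hk0 : 0 ≤ k)
    (hk : ∀ x : ℝ, |x - T| ≤ 1 → log⁺ ‖F (1 / 2 + (x : ℂ) * Complex.I)‖ ≤ k)
    (ha : 0 < a) (ha1 : a ≤ 1 / 2) (ht : |t - T| ≤ 1 / 2) {θ : ℝ} (h0 : 0 < θ) (h1 : θ < 2 * π) :
    log⁺ ‖F (1 / 2 + ((t + a * ct θ : ℝ) : ℂ) * Complex.I)‖ ≤
      k + (Sm a).indicator (fun _ : ℝ => MF ℓ C m) θ + m * ps θ := by
  have hM := H.M_nonneg
  have hm := H.hm
  have hp := ps_nonneg θ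
  have hmp : 0 ≤ m * ps θ := mul_nonneg hm hp
  have hi : 0 ≤ (Sm a).indicator (fun _ : ℝ => MF ℓ C m) θ := indicator_nonneg (fun _ _ => hM) θ
  set x : ℝ := t + a * ct θ with hx
  by_cases hxT : |x - T| ≤ 1
  · have := hk x hxT
    linarith
  · push Not at hxT
    have h3 : |x - T| ≤ |t - T| + a * |ct θ| := by
      have : x - T = (t - T) + a * ct θ := by rw [hx]; ring
      rw [this]
      refine (abs_add_le _ _).trans ?_
      rw [abs_mul, abs_of_pos ha]
    have h4 : 1 / (2 * a) < |ct θ| := by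
      rw [div_lt_iff₀ (by positivity)]
      linarith
    rw [indicator_of_mem (mem_Sm ha h0 h1 h4)]
    have hg := H.g (1 / 2 + (x : ℂ) * Complex.I) (by simp)
    have e1 : (1 / 2 + (x : ℂ) * Complex.I).im = x := by simp
    rw [e1] at hg
    have h6 : 1 + |x - T| ≤ 2 * (1 + |ct θ|) := by
      have := abs_nonneg (ct θ)
      nlinarith
    have h7 : Real.log (1 + |x - T|) ≤ Real.log 2 + ps θ := by
      have h8 := Real.log_le_log (by positivity) h6
      rwa [Real.log_mul (by positivity) (by positivity)] at h8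
    have h10 := mul_le_mul_of_nonneg_left h7 hm
    unfold MF at *
    linarith

lemma inner' (H : LD F T ℓ C m K) {k a t : ℝ} (hk0 : 0 ≤ k)
    (hk : ∀ x : ℝ, |x - T| ≤ 1 → log⁺ ‖F (1 / 2 + (x : ℂ) * Complex.I)‖ ≤ k)
    (ha : 0 < a) (ha1 : a ≤ 1 / 2) (ht : |t - T| ≤ 1 / 2) :
    log⁺ ‖F (1 / 2 + a + t * Complex.I)‖ ≤ k + 2 * a * MF ℓ C m + m * C0 / (2 * π) := by
  have hpi := Real.pi_pos
  have hM := H.M_nonneg
  refine (poissonF H.hd H.hm H.growth ha t).trans ?_
  rw [← div_eq_inv_mul, div_le_iff₀ (by positivity)]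
  rw [intervalIntegral.integral_of_le (by positivity)]
  have hg1 : Integrable (fun _ : ℝ => k) (volume.restrict (Set.Ioc 0 (2 * π))) :=
    integrable_const _
  have hg2 : Integrable ((Sm a).indicator (fun _ : ℝ => MF ℓ C m))
      (volume.restrict (Set.Ioc 0 (2 * π))) :=
    (integrable_const _).indicator (Sm_meas a)
  have hg3 : Integrable (fun θ => m * ps θ) (volume.restrict (Set.Ioc 0 (2 * π))) :=
    ps_integrable.const_mul m
  have hle : ∫ θ in Set.Ioc 0 (2 * π), log⁺ ‖F (1 / 2 + ((t + a * ct θ : ℝ) : ℂ) * Complex.I)‖ ≤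
      ∫ θ in Set.Ioc 0 (2 * π), (k + (Sm a).indicator (fun _ : ℝ => MF ℓ C m) θ + m * ps θ) := by
    refine integral_mono_of_nonneg (Eventually.of_forall fun θ => posLog_nonneg)
      ((hg1.add hg2).add hg3) ?_
    filter_upwards [ae_mem] with θ hθ
    exact pw H hk0 hk ha ha1 ht hθ.1 hθ.2
  refine hle.trans ?_
  have e1 : ∫ θ in Set.Ioc 0 (2 * π), (k + (Sm a).indicator (fun _ : ℝ => MF ℓ C m) θ + m * ps θ) =
      2 * π * k + (∫ θ in Set.Ioc 0 (2 * π), (Sm a).indicator (fun _ : ℝ => MF ℓ C m) θ) +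
        m * C0 := by
    have e4 := integral_add (f := fun θ => k + (Sm a).indicator (fun _ : ℝ => MF ℓ C m) θ)
      (g := fun θ => m * ps θ) (hg1.add hg2) hg3
    have e5 := integral_add (f := fun _ : ℝ => k)
      (g := fun θ => (Sm a).indicator (fun _ : ℝ => MF ℓ C m) θ) hg1 hg2
    have e6 : (volume.restrict (Set.Ioc 0 (2 * π))).real Set.univ = 2 * π := by
      simp [Measure.real, Real.volume_Ioc, hpi.le]
    have e7 : ∫ θ in Set.Ioc 0 (2 * π), m * ps θ = m * C0 := by
      unfold C0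
      exact integral_const_mul m ps
    have e8 : ∫ _ in Set.Ioc 0 (2 * π), k = 2 * π * k := by
      rw [integral_const, e6, smul_eq_mul]
    rw [e4, e5, e7, e8]
  have e2 : ∫ θ in Set.Ioc 0 (2 * π), (Sm a).indicator (fun _ : ℝ => MF ℓ C m) θ ≤
      4 * π * a * MF ℓ C m := by
    rw [integral_indicator (Sm_meas a), integral_const, smul_eq_mul]
    refine mul_le_mul_of_nonneg_right ?_ hM
    rw [Measure.real, Measure.restrict_apply_univ]
    exact ENNReal.toReal_le_of_le_ofReal (by positivity)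
      ((Measure.restrict_apply_le _ _).trans (Sm_vol ha))
  rw [e1]
  have e3 : (k + 2 * a * MF ℓ C m + m * C0 / (2 * π)) * (2 * π) =
      2 * π * k + 4 * π * a * MF ℓ C m + m * C0 := by
    field_simp
    ring
  rw [e3]
  linarith

/-- **the bound on discs** -/
theorem disc (H : LD F T ℓ C m K) {k R : ℝ} (hk0 : 0 ≤ k)
    (hk : ∀ x : ℝ, |x - T| ≤ 1 → log⁺ ‖F (1 / 2 + (x : ℂ) * Complex.I)‖ ≤ k)
    (hR : 0 ≤ R) (hR1 : R ≤ 1 / 2) {s : ℂ} (hs : ‖s - (1 / 2 + T * Complex.I)‖ ≤ R) :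
    log⁺ ‖F s‖ ≤ k + 3 * R * ℓ + (2 * C + 3 * m + m * C0 / (2 * π) + K) := by
  have hpi := Real.pi_pos
  have hM := H.M_nonneg
  have hm := H.hm
  have hℓ := H.hℓ
  have hK := H.hK
  have hC := H.hC
  have hC0 := C0_nonneg
  have hl2 : 0 < Real.log 2 := Real.log_pos (by norm_num)
  have hl21 : Real.log 2 ≤ 1 := by
    have := Real.log_two_lt_d9; linarith
  have hre : |s.re - 1 / 2| ≤ R := by
    have h1 := Complex.abs_re_le_norm (s - (1 / 2 + T * Complex.I))
    have h2 : (s - (1 / 2 + T * Complex.I)).re = s.re - 1 / 2 := by simp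
    rw [h2] at h1
    linarith
  have him : |s.im - T| ≤ R := by
    have h1 := Complex.abs_im_le_norm (s - (1 / 2 + T * Complex.I))
    have h2 : (s - (1 / 2 + T * Complex.I)).im = s.im - T := by simp
    rw [h2] at h1
    linarith
  have hml : m * Real.log 2 ≤ m := mul_le_of_le_one_right hm hl21
  have hml0 : 0 ≤ m * Real.log 2 := by positivity
  have hMF : MF ℓ C m ≤ C + ℓ + m := by unfold MF; linarith
  have hcc : 0 ≤ m * C0 / (2 * π) := by positivity
  have hright : ∀ a : ℝ, 0 < a → a ≤ R →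
      log⁺ ‖F (1 / 2 + a + s.im * Complex.I)‖ ≤ k + 2 * R * ℓ + (C + m) + m * C0 / (2 * π) := by
    intro a ha haR
    have h1 := inner' H hk0 hk ha (by linarith) (t := s.im) (by linarith)
    have h2 : 2 * a * MF ℓ C m ≤ 2 * R * ℓ + (C + m) := by
      have h3 : 2 * a * MF ℓ C m ≤ 2 * R * (C + ℓ + m) := by
        refine mul_le_mul (by linarith) hMF hM (by linarith)
      have h4 : 2 * R * (C + m) ≤ 1 * (C + m) :=
        mul_le_mul_of_nonneg_right (by linarith) (by linarith)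
      nlinarith
    linarith
  have hRℓ : 0 ≤ R * ℓ := mul_nonneg hR hℓ
  rcases lt_trichotomy s.re (1 / 2) with h | h | h
  · set σ : ℝ := 1 / 2 - s.re with hσ
    have hσ0 : 0 < σ := by rw [hσ]; linarith
    have hσR : σ ≤ R := by
      have := (abs_le.1 hre).1
      rw [hσ]; linarith
    have e : s = 1 / 2 - σ + s.im * Complex.I := by
      apply Complex.ext <;> simp [hσ]
    have h1 := H.r σ s.im hσ0.le (by linarith) (by linarith)
    rw [← e] at h1
    have h2 := hright σ hσ0 hσR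
    have h3 : σ * (ℓ + m * Real.log 2) ≤ R * ℓ + m := by
      have h4 : σ * ℓ ≤ R * ℓ := mul_le_mul_of_nonneg_right hσR hℓ
      have h5 : σ * (m * Real.log 2) ≤ 1 * m :=
        mul_le_mul (by linarith) hml hml0 (by norm_num)
      linarith
    linarith
  · have e : s = 1 / 2 + s.im * Complex.I := by
      apply Complex.ext <;> simp [h]
    have h1 := hk s.im (by linarith)
    rw [← e] at h1
    linarith
  · set a : ℝ := s.re - 1 / 2 with ha
    have ha0 : 0 < a := by rw [ha]; linarith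
    have haR : a ≤ R := by
      have := (abs_le.1 hre).2
      rw [ha]; linarith
    have e : s = 1 / 2 + a + s.im * Complex.I := by
      apply Complex.ext <;> simp [ha]
    have h2 := hright a ha0 haR
    rw [← e] at h2
    linarith

end Pool.Agent.Q32.Smp
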