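import Pool.Agent.Q32.Smp.Disc

/-!
# A bound on small discs with centre on the critical line, depending on the imaginary part

If `log⁺ |F(1/2 + ix)| ≤ k` for `|x - T| ≤ W`, then on the disc `|z| ≤ R ≤ 1/2` the function
`F(1/2 + i (T + z)) exp (i ℓ z / 2)` is at most `exp (k + ℓ |Im z| / 2 + 2 R ℓ / (2 W - 1) + O(1))`.
-/

set_option autoImplicit false
open MeasureTheory Filter Topology Set Real

namespace Pool.Agent.Q32.Smp

open Pool.Agent.H983R4.LH Pool.Agent.H983R4.GL

variable {F : ℂ → ℂ} {T ℓ C m K : ℝ}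

lemma pwW (H : LD F T ℓ C m K) {k a t W : ℝ} (hk0 : 0 ≤ k) (hW : 1 ≤ W)
    (hk : ∀ x : ℝ, |x - T| ≤ W → log⁺ ‖F (1 / 2 + (x : ℂ) * Complex.I)‖ ≤ k)
    (ha : 0 < a) (ha1 : a ≤ 1 / 2) (ht : |t - T| ≤ 1 / 2) {θ : ℝ} (h0 : 0 < θ) (h1 : θ < 2 * π) :
    log⁺ ‖F (1 / 2 + ((t + a * ct θ : ℝ) : ℂ) * Complex.I)‖ ≤
      k + (Sm (a / (2 * W - 1))).indicator (fun _ : ℝ => MF ℓ C m) θ + m * ps θ := by
  have hM := H.M_nonneg
  have hm := H.hm
  have hp := ps_nonneg θ
  have hmp : 0 ≤ m * ps θ := mul_nonneg hm hp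
  have hW0 : 0 < 2 * W - 1 := by linarith
  have hi : 0 ≤ (Sm (a / (2 * W - 1))).indicator (fun _ : ℝ => MF ℓ C m) θ :=
    indicator_nonneg (fun _ _ => hM) θ
  set x : ℝ := t + a * ct θ with hx
  by_cases hxT : |x - T| ≤ W
  · have := hk x hxT
    linarith
  · push Not at hxT
    have h3 : |x - T| ≤ |t - T| + a * |ct θ| := by
      have : x - T = (t - T) + a * ct θ := by rw [hx]; ring
      rw [this]
      refine (abs_add_le _ _).trans ?_
      rw [abs_mul, abs_of_pos ha]
    have h4 : 1 / (2 * (a / (2 * W - 1))) < |ct θ| := by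
      rw [div_lt_iff₀ (by positivity)]
      have e : |ct θ| * (2 * (a / (2 * W - 1))) = 2 * (a * |ct θ|) / (2 * W - 1) := by ring
      rw [e, lt_div_iff₀ hW0]
      linarith
    rw [indicator_of_mem (mem_Sm (by positivity) h0 h1 h4)]
    have hg := H.g (1 / 2 + (x : ℂ) * Complex.I) (by simp)
    have e1 : (1 / 2 + (x : ℂ) * Complex.I).im = x := by simp
    rw [e1] at hg
    have h6 : 1 + |x - T| ≤ 2 * (1 + |ct θ|) := by
      have := abs_nonneg (ct θ)
      nlinarith
    have h7 : Real.log (1 + |x - T|) ≤ Real.log 2 + ps θ := by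
      have h8 := Real.log_le_log (by positivity) h6
      rwa [Real.log_mul (by positivity) (by positivity)] at h8
    have h10 := mul_le_mul_of_nonneg_left h7 hm
    unfold MF at *
    linarith

lemma innerW (H : LD F T ℓ C m K) {k a t W : ℝ} (hk0 : 0 ≤ k) (hW : 1 ≤ W)
    (hk : ∀ x : ℝ, |x - T| ≤ W → log⁺ ‖F (1 / 2 + (x : ℂ) * Complex.I)‖ ≤ k)
    (ha : 0 < a) (ha1 : a ≤ 1 / 2) (ht : |t - T| ≤ 1 / 2) :
    log⁺ ‖F (1 / 2 + a + t * Complex.I)‖ ≤
      k + 2 * (a / (2 * W - 1)) * MF ℓ C m + m * C0 / (2 * π) := by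
  have hpi := Real.pi_pos
  have hM := H.M_nonneg
  have hW0 : 0 < 2 * W - 1 := by linarith
  set a' : ℝ := a / (2 * W - 1) with ha'
  have ha'0 : 0 < a' := by positivity
  refine (poissonF H.hd H.hm H.growth ha t).trans ?_
  rw [← div_eq_inv_mul, div_le_iff₀ (by positivity)]
  rw [intervalIntegral.integral_of_le (by positivity)]
  have hg1 : Integrable (fun _ : ℝ => k) (volume.restrict (Set.Ioc 0 (2 * π))) :=
    integrable_const _
  have hg2 : Integrable ((Sm a').indicator (fun _ : ℝ => MF ℓ C m))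
      (volume.restrict (Set.Ioc 0 (2 * π))) :=
    (integrable_const _).indicator (Sm_meas a')
  have hg3 : Integrable (fun θ => m * ps θ) (volume.restrict (Set.Ioc 0 (2 * π))) :=
    ps_integrable.const_mul m
  have hle : ∫ θ in Set.Ioc 0 (2 * π), log⁺ ‖F (1 / 2 + ((t + a * ct θ : ℝ) : ℂ) * Complex.I)‖ ≤
      ∫ θ in Set.Ioc 0 (2 * π), (k + (Sm a').indicator (fun _ : ℝ => MF ℓ C m) θ + m * ps θ) := by
    refine integral_mono_of_nonneg (Eventually.of_forall fun θ => posLog_nonneg)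
      ((hg1.add hg2).add hg3) ?_
    filter_upwards [ae_mem] with θ hθ
    exact pwW H hk0 hW hk ha ha1 ht hθ.1 hθ.2
  refine hle.trans ?_
  have e1 : ∫ θ in Set.Ioc 0 (2 * π), (k + (Sm a').indicator (fun _ : ℝ => MF ℓ C m) θ + m * ps θ) =
      2 * π * k + (∫ θ in Set.Ioc 0 (2 * π), (Sm a').indicator (fun _ : ℝ => MF ℓ C m) θ) +
        m * C0 := by
    have e4 := integral_add (f := fun θ => k + (Sm a').indicator (fun _ : ℝ => MF ℓ C m) θ)
      (g := fun θ => m * ps θ) (hg1.add hg2) hg3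
    have e5 := integral_add (f := fun _ : ℝ => k)
      (g := fun θ => (Sm a').indicator (fun _ : ℝ => MF ℓ C m) θ) hg1 hg2
    have e6 : (volume.restrict (Set.Ioc 0 (2 * π))).real Set.univ = 2 * π := by
      simp [Measure.real, Real.volume_Ioc, hpi.le]
    have e7 : ∫ θ in Set.Ioc 0 (2 * π), m * ps θ = m * C0 := by
      unfold C0
      exact integral_const_mul m ps
    have e8 : ∫ _ in Set.Ioc 0 (2 * π), k = 2 * π * k := by
      rw [integral_const, e6, smul_eq_mul]
    rw [e4, e5, e7, e8]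
  have e2 : ∫ θ in Set.Ioc 0 (2 * π), (Sm a').indicator (fun _ : ℝ => MF ℓ C m) θ ≤
      4 * π * a' * MF ℓ C m := by
    rw [integral_indicator (Sm_meas a'), integral_const, smul_eq_mul]
    refine mul_le_mul_of_nonneg_right ?_ hM
    rw [Measure.real, Measure.restrict_apply_univ]
    exact ENNReal.toReal_le_of_le_ofReal (by positivity)
      ((Measure.restrict_apply_le _ _).trans (Sm_vol ha'0))
  rw [e1]
  have e3 : (k + 2 * a' * MF ℓ C m + m * C0 / (2 * π)) * (2 * π) =
      2 * π * k + 4 * π * a' * MF ℓ C m + m * C0 := by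
    field_simp
    ring
  rw [e3]
  linarith

lemma norm_le_exp_posLog {y : ℝ} (hy : 0 ≤ y) : y ≤ Real.exp (log⁺ y) := by
  rcases eq_or_lt_of_le hy with h | h
  · rw [← h]; positivity
  · calc y = Real.exp (Real.log y) := (Real.exp_log h).symm
      _ ≤ _ := Real.exp_le_exp.2 (le_max_right _ _)

/-- **the bound on discs** -/
theorem disc2 (H : LD F T ℓ C m K) {k R W : ℝ} (hk0 : 0 ≤ k) (hW : 1 ≤ W)
    (hk : ∀ x : ℝ, |x - T| ≤ W → log⁺ ‖F (1 / 2 + (x : ℂ) * Complex.I)‖ ≤ k)
    (hR : 0 ≤ R) (hR1 : R ≤ 1 / 2) {z : ℂ} (hz : ‖z‖ ≤ R) :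
    ‖F (1 / 2 + T * Complex.I + z * Complex.I) * Complex.exp ((ℓ / 2 : ℝ) * z * Complex.I)‖ ≤
      Real.exp (k + 2 * R * ℓ / (2 * W - 1) + (2 * C + 3 * m + m * C0 / (2 * π) + K) +
        ℓ / 2 * |z.im|) := by
  have hpi := Real.pi_pos
  have hM := H.M_nonneg
  have hm := H.hm
  have hℓ := H.hℓ
  have hK := H.hK
  have hC := H.hC
  have hC0 := C0_nonneg
  have hW0 : 0 < 2 * W - 1 := by linarith
  have hl2 : 0 < Real.log 2 := Real.log_pos (by norm_num)
  have hl21 : Real.log 2 ≤ 1 := by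
    have := Real.log_two_lt_d9; linarith
  have hre : |z.re| ≤ R := (Complex.abs_re_le_norm z).trans hz
  have him : |z.im| ≤ R := (Complex.abs_im_le_norm z).trans hz
  have hml : m * Real.log 2 ≤ m := mul_le_of_le_one_right hm hl21
  have hml0 : 0 ≤ m * Real.log 2 := by positivity
  have hMF : MF ℓ C m ≤ C + ℓ + m := by unfold MF; linarith
  have hcc : 0 ≤ m * C0 / (2 * π) := by positivity
  set t : ℝ := T + z.re with ht
  have htT : |t - T| ≤ R := by rw [ht, add_sub_cancel_left]; exact hre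
  have hq0 : 0 ≤ 2 * R * ℓ / (2 * W - 1) := by positivity
  have hright : ∀ a : ℝ, 0 < a → a ≤ R →
      log⁺ ‖F (1 / 2 + a + t * Complex.I)‖ ≤
        k + 2 * R * ℓ / (2 * W - 1) + (C + m) + m * C0 / (2 * π) := by
    intro a ha haR
    have h1 := innerW H hk0 hW hk ha (by linarith) (t := t) (by linarith)
    have h2 : 2 * (a / (2 * W - 1)) * MF ℓ C m ≤ 2 * R * ℓ / (2 * W - 1) + (C + m) := by
      have h3 : 2 * (a / (2 * W - 1)) * MF ℓ C m ≤ 2 * (R / (2 * W - 1)) * (C + ℓ + m) := by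
        refine mul_le_mul ?_ hMF hM (by positivity)
        have := div_le_div_of_nonneg_right haR hW0.le
        linarith
      have h5 : R / (2 * W - 1) ≤ 1 / 2 := by
        rw [div_le_iff₀ hW0]
        linarith
      have h4 : 2 * (R / (2 * W - 1)) * (C + m) ≤ 1 * (C + m) :=
        mul_le_mul_of_nonneg_right (by linarith) (by linarith)
      have h6 : 2 * (R / (2 * W - 1)) * (C + ℓ + m) =
          2 * R * ℓ / (2 * W - 1) + 2 * (R / (2 * W - 1)) * (C + m) := by ring
      linarith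
    linarith
  have hs : (1 / 2 + T * Complex.I + z * Complex.I : ℂ) =
      1 / 2 - z.im + t * Complex.I := by
    apply Complex.ext
    · simp
      ring
    · simp [ht]
  rw [norm_mul, Complex.norm_exp]
  have e1 : (((ℓ / 2 : ℝ) : ℂ) * z * Complex.I).re = -(ℓ / 2 * z.im) := by
    rw [mul_assoc, Complex.re_ofReal_mul]
    simp
  rw [e1, hs]
  refine (mul_le_mul_of_nonneg_right (norm_le_exp_posLog (norm_nonneg _)) (Real.exp_pos _).le).trans ?_
  rw [← Real.exp_add]
  apply Real.exp_le_exp.2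
  have hCm : 0 ≤ C + m := by linarith
  rcases lt_trichotomy z.im 0 with h | h | h
  · -- to the right of the line
    set a : ℝ := -z.im with ha
    have ha0 : 0 < a := by rw [ha]; linarith
    have haR : a ≤ R := by
      rw [abs_of_neg h] at him
      exact him
    have e2 : (1 / 2 - (z.im : ℂ) + t * Complex.I) = 1 / 2 + a + t * Complex.I := by
      rw [ha]; push_cast; ring
    have h2 := hright a ha0 haR
    rw [e2, abs_of_neg h]
    linarith
  · have e2 : (1 / 2 - (z.im : ℂ) + t * Complex.I) = 1 / 2 + t * Complex.I := by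
      rw [h]; simp
    have h1 := hk t (by linarith)
    rw [e2, h]
    simp only [mul_zero, neg_zero, add_zero, abs_zero]
    linarith
  · -- to the left of the line
    set σ : ℝ := z.im with hσ
    have hσR : σ ≤ R := by
      rw [abs_of_pos h] at him
      exact him
    have h1 := H.r σ t h.le (by linarith) (by linarith)
    have h2 := hright σ h hσR
    have h5 : σ * (m * Real.log 2) ≤ 1 * m :=
      mul_le_mul (by linarith) hml hml0 (by norm_num)
    rw [abs_of_pos h]
    have h6 : σ * (ℓ + m * Real.log 2) = σ * ℓ + σ * (m * Real.log 2) := by ring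
    linarith

end Pool.Agent.Q32.Smp
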