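import Pool.Agent.H297R2.Schwarz

/-!
# A local sampling inequality for entire functions

`K + 1` nodes on the positive real axis, one in each of the intervals `[2jw, (2j+1)w]`, and a bound on
the circle of radius `20 (2K+1) w`, control the value at `0`: Lagrange interpolation and Schwarz' lemma.
-/

set_option autoImplicit false

open Polynomial Finset

namespace Pool.Agent.Q32.Smp

/-- `∏_{i ≤ K, i ≠ j} |i - j| = j! (K - j)!` -/
lemma prod_dist {K j : ℕ} (hj : j ≤ K) :
    ∏ i ∈ (range (K + 1)).erase j, |(i : ℝ) - j| = (j.factorial : ℝ) * ((K - j).factorial : ℝ) := by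
  have hsplit : (range (K + 1)).erase j = range j ∪ Ico (j + 1) (K + 1) := by
    ext i
    simp only [mem_erase, mem_range, mem_union, mem_Ico]
    omega
  have hdisj : Disjoint (range j) (Ico (j + 1) (K + 1)) := by
    rw [Finset.disjoint_left]
    intro i hi hi'
    simp only [mem_range, mem_Ico] at hi hi'
    omega
  rw [hsplit, prod_union hdisj]
  congr 1
  · rw [← Finset.prod_range_add_one_eq_factorial]
    push_cast
    rw [← Finset.prod_range_reflect]
    refine prod_congr rfl fun i hi => ?_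
    have hi' : i < j := mem_range.1 hi
    have h1 : ((j - 1 - i : ℕ) : ℝ) = (j : ℝ) - 1 - i := by
      rw [Nat.cast_sub (by omega), Nat.cast_sub (by omega)]
      simp
    rw [h1, abs_of_nonpos]
    · ring
    · have : (i : ℝ) ≤ j := by exact_mod_cast hi'.le
      linarith
  · rw [← Finset.prod_range_add_one_eq_factorial, prod_Ico_eq_prod_range]
    push_cast
    refine prod_congr rfl fun i _ => ?_
    rw [abs_of_nonneg]
    · ring
    · have : (0 : ℝ) ≤ i := Nat.cast_nonneg i
      linarith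

lemma sum_inv_fact (K : ℕ) :
    ∑ j ∈ range (K + 1), ((j.factorial : ℝ) * ((K - j).factorial : ℝ))⁻¹ = 2 ^ K / K.factorial := by
  have h := Nat.sum_range_choose K
  have h2 : (∑ j ∈ range (K + 1), (K.choose j : ℝ)) = 2 ^ K := by exact_mod_cast h
  rw [eq_div_iff (by exact_mod_cast Nat.factorial_ne_zero K), sum_mul, ← h2]
  refine sum_congr rfl fun j hj => ?_
  have hj' : j ≤ K := by
    have := mem_range.1 hj
    omega
  rw [Nat.cast_choose ℝ hj', inv_mul_eq_div]

/-- the sum of the Lagrange basis polynomials -/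
lemma basis_bound {K : ℕ} (hK : 1 ≤ K) {w : ℝ} (hw : 0 < w) (x : ℕ → ℝ)
    (hx : ∀ j ≤ K, 2 * j * w ≤ x j ∧ x j ≤ (2 * j + 1) * w) {z : ℂ}
    (hz : ‖z‖ ≤ 20 * (2 * K + 1) * w) :
    ∑ j ∈ range (K + 1), ‖(Lagrange.basis (range (K + 1)) (fun i => ((x i : ℝ) : ℂ)) j).eval z‖ ≤
      350 ^ K := by
  have hKr : (1 : ℝ) ≤ K := by exact_mod_cast hK
  have hgap : ∀ i j : ℕ, i ≤ K → j ≤ K → i ≠ j → w * |(i : ℝ) - j| ≤ |x j - x i| := by
    intro i j hi hj hne
    obtain ⟨a1, a2⟩ := hx i hi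
    obtain ⟨b1, b2⟩ := hx j hj
    rcases lt_or_gt_of_ne hne with h | h
    · have h1 : (i : ℝ) + 1 ≤ j := by exact_mod_cast h
      rw [abs_of_nonpos (by linarith), abs_of_nonneg (by nlinarith)]
      nlinarith
    · have h1 : (j : ℝ) + 1 ≤ i := by exact_mod_cast h
      rw [abs_of_nonneg (by linarith), abs_of_nonpos (by nlinarith)]
      nlinarith
  have hone : ∀ j ∈ range (K + 1),
      ‖(Lagrange.basis (range (K + 1)) (fun i => ((x i : ℝ) : ℂ)) j).eval z‖ ≤
        (63 * K) ^ K * ((j.factorial : ℝ) * ((K - j).factorial : ℝ))⁻¹ := by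
    intro j hj
    have hj' : j ≤ K := by
      have := mem_range.1 hj
      omega
    rw [Lagrange.basis, eval_prod, norm_prod]
    have hcard : ((range (K + 1)).erase j).card = K := by
      rw [card_erase_of_mem hj, card_range]
      rfl
    have h1 : ∏ i ∈ (range (K + 1)).erase j,
        ‖(Lagrange.basisDivisor ((x j : ℝ) : ℂ) ((x i : ℝ) : ℂ)).eval z‖ ≤
        ∏ i ∈ (range (K + 1)).erase j, (63 * K * (|(i : ℝ) - j|)⁻¹) := by
      refine prod_le_prod (fun _ _ => norm_nonneg _) fun i hi => ?_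
      rw [mem_erase, mem_range] at hi
      have hi' : i ≤ K := by omega
      have hne := hi.1
      have hpos : 0 < |(i : ℝ) - j| := abs_pos.2 (sub_ne_zero.2 (by exact_mod_cast hne))
      have hg := hgap i j hi' hj' hne
      have hd : 0 < |x j - x i| := lt_of_lt_of_le (by positivity) hg
      have e1 : (Lagrange.basisDivisor ((x j : ℝ) : ℂ) ((x i : ℝ) : ℂ)).eval z =
          (((x j : ℝ) : ℂ) - ((x i : ℝ) : ℂ))⁻¹ * (z - ((x i : ℝ) : ℂ)) := by
        simp [Lagrange.basisDivisor]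
      rw [e1, norm_mul, norm_inv, ← Complex.ofReal_sub, Complex.norm_real, Real.norm_eq_abs]
      have h2 : ‖z - ((x i : ℝ) : ℂ)‖ ≤ 63 * K * w := by
        refine (norm_sub_le _ _).trans ?_
        rw [Complex.norm_real, Real.norm_eq_abs]
        obtain ⟨a1, a2⟩ := hx i hi'
        have hi0 : (0 : ℝ) ≤ i := Nat.cast_nonneg i
        have hiK : (i : ℝ) ≤ K := by exact_mod_cast hi'
        have h3 : 0 ≤ x i := le_trans (by positivity) a1
        rw [abs_of_nonneg h3]
        nlinarith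
      have h3 : |x j - x i|⁻¹ ≤ w⁻¹ * |(i : ℝ) - j|⁻¹ := by
        rw [← mul_inv]
        exact inv_anti₀ (by positivity) hg
      calc |x j - x i|⁻¹ * ‖z - ((x i : ℝ) : ℂ)‖ ≤ (w⁻¹ * |(i : ℝ) - j|⁻¹) * (63 * K * w) :=
            mul_le_mul h3 h2 (norm_nonneg _) (by positivity)
        _ = 63 * K * |(i : ℝ) - j|⁻¹ := by field_simp
    refine h1.trans (le_of_eq ?_)
    rw [prod_mul_distrib, prod_const, hcard, prod_inv_distrib, prod_dist hj']
  refine (sum_le_sum hone).trans ?_
  rw [← mul_sum, sum_inv_fact]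
  have h1 : (K : ℝ) ^ K / K.factorial ≤ Real.exp K :=
    Real.pow_div_factorial_le_exp (K : ℝ) (Nat.cast_nonneg K) K
  have h2 : Real.exp K ≤ 2.72 ^ K := by
    have : Real.exp (K : ℝ) = Real.exp 1 ^ K := by
      rw [← Real.exp_nat_mul, mul_one]
    rw [this]
    exact pow_le_pow_left₀ (Real.exp_pos _).le (by linarith [Real.exp_one_lt_d9]) K
  calc (63 * (K : ℝ)) ^ K * (2 ^ K / K.factorial) = 126 ^ K * ((K : ℝ) ^ K / K.factorial) := by
        rw [mul_pow]
        have : (126 : ℝ) ^ K = 63 ^ K * 2 ^ K := by rw [← mul_pow]; norm_num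
        rw [this]
        ring
    _ ≤ 126 ^ K * 2.72 ^ K := by
        refine mul_le_mul_of_nonneg_left (h1.trans h2) (by positivity)
    _ = (126 * 2.72) ^ K := by rw [mul_pow]
    _ ≤ 350 ^ K := pow_le_pow_left₀ (by norm_num) (by norm_num) K

/-- **the local sampling inequality** -/
theorem loc {f : ℂ → ℂ} (hf : Differentiable ℂ f) {K : ℕ} (hK : 1 ≤ K) {w B M : ℝ} (hw : 0 < w)
    (hB : 0 ≤ B) (x : ℕ → ℝ) (hx : ∀ j ≤ K, 2 * j * w ≤ x j ∧ x j ≤ (2 * j + 1) * w)
    (hxB : ∀ j ≤ K, ‖f (x j)‖ ≤ B) (hM : ∀ z, ‖z‖ = 20 * (2 * K + 1) * w → ‖f z‖ ≤ M) :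
    ‖f 0‖ ≤ 2 * B * 350 ^ K + M / 19 ^ (K + 1) := by
  classical
  have hKr : (1 : ℝ) ≤ K := by exact_mod_cast hK
  set v : ℕ → ℂ := fun i => ((x i : ℝ) : ℂ) with hv
  have hmono : ∀ i j : ℕ, i ≤ K → j ≤ K → i < j → x i < x j := by
    intro i j hi hj h
    obtain ⟨a1, a2⟩ := hx i hi
    obtain ⟨b1, b2⟩ := hx j hj
    have h1 : (i : ℝ) + 1 ≤ j := by exact_mod_cast h
    nlinarith
  have hinj : Set.InjOn v (range (K + 1) : Finset ℕ) := by
    intro i hi j hj hij
    have hi' : i ≤ K := by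
      have := mem_range.1 (mem_coe.1 hi); omega
    have hj' : j ≤ K := by
      have := mem_range.1 (mem_coe.1 hj); omega
    have h1 : x i = x j := by
      have : ((x i : ℝ) : ℂ) = ((x j : ℝ) : ℂ) := hij
      exact_mod_cast this
    rcases lt_trichotomy i j with h | h | h
    · exact absurd h1 (hmono i j hi' hj' h).ne
    · exact h
    · exact absurd h1 (hmono j i hj' hi' h).ne'
  set P : ℂ[X] := Lagrange.interpolate (range (K + 1)) v (fun i => f (v i)) with hP
  have hPn : ∀ i ∈ range (K + 1), P.eval (v i) = f (v i) := fun i hi =>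
    Lagrange.eval_interpolate_at_node _ hinj hi
  have hPb : ∀ z : ℂ, ‖z‖ ≤ 20 * (2 * K + 1) * w → ‖P.eval z‖ ≤ B * 350 ^ K := by
    intro z hz
    rw [hP, Lagrange.interpolate_apply, eval_finsetSum]
    refine (norm_sum_le _ _).trans ?_
    calc ∑ i ∈ range (K + 1), ‖(C (f (v i)) * Lagrange.basis (range (K + 1)) v i).eval z‖
        ≤ ∑ i ∈ range (K + 1), B * ‖(Lagrange.basis (range (K + 1)) v i).eval z‖ := by
          refine sum_le_sum fun i hi => ?_
          rw [eval_mul, eval_C, norm_mul]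
          refine mul_le_mul_of_nonneg_right ?_ (norm_nonneg _)
          exact hxB i (by have := mem_range.1 hi; omega)
      _ = B * ∑ i ∈ range (K + 1), ‖(Lagrange.basis (range (K + 1)) v i).eval z‖ := by
          rw [mul_sum]
      _ ≤ B * 350 ^ K := mul_le_mul_of_nonneg_left (basis_bound hK hw x hx hz) hB
  set g : ℂ → ℂ := fun z => f z - P.eval z with hg
  have hgd : Differentiable ℂ g := hf.sub P.differentiable
  set ρ : ℝ := (2 * K + 1) * w with hρ
  have hρ0 : 0 < ρ := by positivity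
  have hS := Pool.Agent.H297R2.schwarz g hgd 1 ((range (K + 1)).image v) (by
      intro c hc j hj
      obtain ⟨i, hi, rfl⟩ := mem_image.1 hc
      have : j = 0 := by omega
      subst this
      rw [iteratedDeriv_zero]
      simp only [hg]
      rw [hPn i hi, sub_self])
    ρ (20 * ρ) (M + B * 350 ^ K) ρ (by linarith) (by linarith) (by
      intro c hc
      obtain ⟨i, hi, rfl⟩ := mem_image.1 hc
      have hi' : i ≤ K := by
        have := mem_range.1 hi; omega
      obtain ⟨a1, a2⟩ := hx i hi'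
      have hi0 : (0 : ℝ) ≤ i := Nat.cast_nonneg i
      have hiK : (i : ℝ) ≤ K := by exact_mod_cast hi'
      have h3 : 0 ≤ x i := le_trans (by positivity) a1
      rw [hv]
      simp only
      rw [Complex.norm_real, Real.norm_eq_abs, abs_of_nonneg h3, hρ]
      nlinarith) 0 (by rw [norm_zero]; linarith) (by
      intro c hc
      obtain ⟨i, hi, rfl⟩ := mem_image.1 hc
      have hi' : i ≤ K := by
        have := mem_range.1 hi; omega
      obtain ⟨a1, a2⟩ := hx i hi'
      have hi0 : (0 : ℝ) ≤ i := Nat.cast_nonneg i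
      have hiK : (i : ℝ) ≤ K := by exact_mod_cast hi'
      have h3 : 0 ≤ x i := le_trans (by positivity) a1
      rw [hv, zero_sub, norm_neg]
      simp only
      rw [Complex.norm_real, Real.norm_eq_abs, abs_of_nonneg h3, hρ]
      nlinarith) (by
      intro z hz
      have e : 20 * ρ = 20 * (2 * K + 1) * w := by rw [hρ]; ring
      rw [e] at hz
      refine (norm_sub_le _ _).trans (add_le_add (hM z hz) (hPb z hz.le)))
  have hcard : ((range (K + 1)).image v).card = K + 1 := by
    rw [card_image_of_injOn hinj, card_range]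
  rw [hcard, one_mul] at hS
  have e2 : (20 * ρ - ρ) ^ (K + 1) = 19 ^ (K + 1) * ρ ^ (K + 1) := by
    rw [← mul_pow]; congr 1; ring
  rw [e2, ← mul_assoc] at hS
  have hS' : ‖g 0‖ * 19 ^ (K + 1) ≤ M + B * 350 ^ K :=
    le_of_mul_le_mul_right hS (by positivity)
  have hg0 : ‖g 0‖ ≤ M / 19 ^ (K + 1) + B * 350 ^ K := by
    have h19 : (1 : ℝ) ≤ 19 ^ (K + 1) := one_le_pow₀ (by norm_num)
    have h1 : ‖g 0‖ ≤ (M + B * 350 ^ K) / 19 ^ (K + 1) := by
      rwa [le_div_iff₀ (by positivity)]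
    refine h1.trans ?_
    rw [add_div]
    have : B * 350 ^ K / 19 ^ (K + 1) ≤ B * 350 ^ K := div_le_self (by positivity) h19
    linarith
  have hf0 : f 0 = g 0 + P.eval 0 := by simp only [hg]; ring
  have hP0 := hPb 0 (by rw [norm_zero]; positivity)
  calc ‖f 0‖ ≤ ‖g 0‖ + ‖P.eval 0‖ := by rw [hf0]; exact norm_add_le _ _
    _ ≤ (M / 19 ^ (K + 1) + B * 350 ^ K) + B * 350 ^ K := add_le_add hg0 hP0
    _ = 2 * B * 350 ^ K + M / 19 ^ (K + 1) := by ring

end Pool.Agent.Q32.Smp
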