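import Pool.Agent.Q32.Smp.Two

/-!
# The two-sided local sampling inequality (conclusion)
-/

set_option autoImplicit false

open Polynomial Finset

namespace Pool.Agent.Q32.Smp

lemma fact_bound {n : ℕ} (hn : 1 ≤ n) : (n.factorial : ℝ) * Real.exp ((n : ℝ) - 1) ≤ (n : ℝ) ^ (n + 1) := by
  induction n, hn using Nat.le_induction with
  | base => simp
  | succ n hn ih =>
    have hn0 : (0 : ℝ) < n := by exact_mod_cast hn
    have h1 : (n : ℝ) ≤ (n + 1) * Real.exp (-(1 / ((n : ℝ) + 1))) := by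
      have h2 := Real.add_one_le_exp (-(1 / ((n : ℝ) + 1)))
      have h3 := mul_le_mul_of_nonneg_left h2 (by positivity : (0 : ℝ) ≤ (n : ℝ) + 1)
      have h4 : ((n : ℝ) + 1) * (-(1 / ((n : ℝ) + 1)) + 1) = n := by
        field_simp
        ring
      linarith
    have h2 : (n : ℝ) ^ (n + 1) ≤ ((n : ℝ) + 1) ^ (n + 1) * Real.exp (-1) := by
      have h3 := pow_le_pow_left₀ hn0.le h1 (n + 1)
      rw [mul_pow, ← Real.exp_nat_mul] at h3
      have h4 : ((n + 1 : ℕ) : ℝ) * -(1 / ((n : ℝ) + 1)) = -1 := by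
        push_cast
        field_simp
      rwa [h4] at h3
    have h5 : (((n + 1).factorial : ℕ) : ℝ) = (n + 1) * n.factorial := by
      rw [Nat.factorial_succ]; push_cast; ring
    rw [h5]
    push_cast
    have h6 : Real.exp ((n : ℝ) + 1 - 1) = Real.exp ((n : ℝ) - 1) * Real.exp 1 := by
      rw [← Real.exp_add]; congr 1; ring
    rw [h6]
    calc ((n : ℝ) + 1) * n.factorial * (Real.exp ((n : ℝ) - 1) * Real.exp 1)
        = ((n : ℝ) + 1) * Real.exp 1 * (n.factorial * Real.exp ((n : ℝ) - 1)) := by ring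
      _ ≤ ((n : ℝ) + 1) * Real.exp 1 * (n : ℝ) ^ (n + 1) :=
          mul_le_mul_of_nonneg_left ih (by positivity)
      _ ≤ ((n : ℝ) + 1) * Real.exp 1 * (((n : ℝ) + 1) ^ (n + 1) * Real.exp (-1)) :=
          mul_le_mul_of_nonneg_left h2 (by positivity)
      _ = ((n : ℝ) + 1) ^ (n + 1 + 1) * (Real.exp 1 * Real.exp (-1)) := by ring
      _ = ((n : ℝ) + 1) ^ (n + 1 + 1) := by rw [← Real.exp_add]; simp

/-- **the two-sided local sampling inequality** -/
theorem loc2 {f : ℂ → ℂ} (hf : Differentiable ℂ f) {n : ℕ} (hn : 1 ≤ n) {h δ R : ℝ} (hh : 0 < h)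
    (hδ : 0 < δ) (hδ1 : δ ≤ 1) (hR : R = n * h) (x : ℕ → ℝ)
    (hx : ∀ i < n + n, -R + i * h + δ * h / 2 ≤ x i ∧ x i ≤ -R + (i + 1) * h - δ * h / 2)
    {A B b : ℝ} (hA : 0 ≤ A) (hB : 0 ≤ B) (hb : 0 ≤ b) (hxb : ∀ i < n + n, ‖f (x i)‖ ≤ b)
    (hbA : b * (6 / δ) ^ (n + n) ≤ Real.exp A)
    (hfb : ∀ z : ℂ, ‖z‖ ≤ R → ‖f z‖ ≤ Real.exp (A + B * |z.im|)) :
    ‖f 0‖ ≤ b * (6 / δ) ^ (n + n) +
      2 * Real.exp (A + 2 * B * R / Real.pi) * (n * Real.exp (1 - n)) ^ 2 := by
  classical
  have hnr : (1 : ℝ) ≤ n := by exact_mod_cast hn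
  have hR0 : 0 < R := by rw [hR]; positivity
  have hδh : 0 < δ * h := by positivity
  obtain ⟨N, hN⟩ : ∃ N, n + n = N + 1 := ⟨n + n - 1, by omega⟩
  have hNr : (n : ℝ) + n = N + 1 := by exact_mod_cast hN
  set v : ℕ → ℂ := fun i => ((x i : ℝ) : ℂ) with hv
  have hsep : ∀ i j : ℕ, i ≤ N → j ≤ N → i ≠ j → δ * h * |(i : ℝ) - j| ≤ |x j - x i| := by
    have haux : ∀ i j : ℕ, i ≤ N → j ≤ N → i < j → δ * h * ((j : ℝ) - i) ≤ x j - x i := by
      intro i j hi hj hij
      obtain ⟨a1, a2⟩ := hx i (by omega)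
      obtain ⟨b1, b2⟩ := hx j (by omega)
      have h1 : (i : ℝ) + 1 ≤ j := by exact_mod_cast hij
      have h2 : h * ((j : ℝ) - i - 1) + δ * h ≤ x j - x i := by linarith
      have h3 : δ * (h * ((j : ℝ) - i - 1)) ≤ 1 * (h * ((j : ℝ) - i - 1)) :=
        mul_le_mul_of_nonneg_right hδ1 (mul_nonneg hh.le (by linarith))
      nlinarith
    intro i j hi hj hne
    rcases lt_or_gt_of_ne hne with h1 | h1
    · have h2 := haux i j hi hj h1
      have h3 : (i : ℝ) ≤ j := by exact_mod_cast h1.le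
      rw [abs_of_nonpos (by linarith), neg_sub]
      exact h2.trans (le_abs_self _)
    · have h2 := haux j i hj hi h1
      have h3 : (j : ℝ) ≤ i := by exact_mod_cast h1.le
      rw [abs_of_nonneg (by linarith), abs_sub_comm]
      exact h2.trans (le_abs_self _)
  have hne' : ∀ i j : ℕ, i ≤ N → j ≤ N → i ≠ j → x i ≠ x j := by
    intro i j hi hj hne heq
    have h1 := hsep i j hi hj hne
    rw [heq, sub_self, abs_zero] at h1
    have h2 : 0 < |(i : ℝ) - j| := abs_pos.2 (sub_ne_zero.2 (by exact_mod_cast hne))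
    have : 0 < δ * h * |(i : ℝ) - j| := by positivity
    linarith
  have habs : ∀ i ≤ N, |x i| ≤ R := by
    intro i hi
    obtain ⟨a1, a2⟩ := hx i (by omega)
    have hi0 : (0 : ℝ) ≤ i := Nat.cast_nonneg i
    have hi1 : (i : ℝ) ≤ N := by exact_mod_cast hi
    have h1 : ((i : ℝ) + 1) * h ≤ 2 * R := by
      rw [hR]
      nlinarith
    have h2 : 0 ≤ (i : ℝ) * h := by positivity
    rw [abs_le]
    constructor <;> linarith
  have hinj : Set.InjOn v (range (N + 1) : Finset ℕ) := by
    intro i hi j hj hij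
    have hi' : i ≤ N := by
      have := mem_range.1 (mem_coe.1 hi); omega
    have hj' : j ≤ N := by
      have := mem_range.1 (mem_coe.1 hj); omega
    have h1 : x i = x j := by
      have : ((x i : ℝ) : ℂ) = ((x j : ℝ) : ℂ) := hij
      exact_mod_cast this
    by_contra hne
    exact hne' i j hi' hj' hne h1
  rw [hN] at hbA ⊢
  set P : ℂ[X] := Lagrange.interpolate (range (N + 1)) v (fun i => f (v i)) with hP
  have hPn : ∀ i ∈ range (N + 1), P.eval (v i) = f (v i) := fun i hi =>
    Lagrange.eval_interpolate_at_node _ hinj hi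
  have hPb : ∀ z : ℂ, ‖z‖ ≤ R → ‖P.eval z‖ ≤ b * (6 / δ) ^ (N + 1) := by
    intro z hz
    rw [hP, Lagrange.interpolate_apply, eval_finsetSum]
    refine (norm_sum_le _ _).trans ?_
    calc ∑ i ∈ range (N + 1), ‖(C (f (v i)) * Lagrange.basis (range (N + 1)) v i).eval z‖
        ≤ ∑ i ∈ range (N + 1), b * ‖(Lagrange.basis (range (N + 1)) v i).eval z‖ := by
          refine sum_le_sum fun i hi => ?_
          rw [eval_mul, eval_C, norm_mul]
          refine mul_le_mul_of_nonneg_right ?_ (norm_nonneg _)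
          exact hxb i (by have := mem_range.1 hi; omega)
      _ = b * ∑ i ∈ range (N + 1), ‖(Lagrange.basis (range (N + 1)) v i).eval z‖ := by
          rw [mul_sum]
      _ ≤ b * (6 / δ) ^ (N + 1) := by
          refine mul_le_mul_of_nonneg_left (basis_bound2 hh hδ hδ1 ?_ x hsep habs hz) hb
          rw [hR, ← hNr]; ring
  set g : ℂ → ℂ := fun z => f z - P.eval z with hg
  have hgd : Differentiable ℂ g := hf.sub P.differentiable
  have hl2 : 0 < Real.log 2 := Real.log_pos (by norm_num)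
  have hJ := jensen hgd hR0 ((range (N + 1)).image v) (by
      intro c hc
      obtain ⟨i, hi, rfl⟩ := mem_image.1 hc
      simp only [hg]
      rw [hPn i hi, sub_self]) (A := A + Real.log 2) (B := B) (by positivity) hB (by
      intro z hz
      have h1 := hfb z hz.le
      have h2 := (hPb z hz.le).trans hbA
      have h3 : Real.exp A ≤ Real.exp (A + B * |z.im|) := Real.exp_le_exp.2 (by
        have : 0 ≤ B * |z.im| := by positivity
        linarith)
      have h4 : Real.exp (A + Real.log 2 + B * |z.im|) = 2 * Real.exp (A + B * |z.im|) := by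
        rw [show A + Real.log 2 + B * |z.im| = Real.log 2 + (A + B * |z.im|) by ring, Real.exp_add,
          Real.exp_log (by norm_num)]
      rw [h4]
      refine (norm_sub_le _ _).trans ?_
      linarith)
  have hcard : ((range (N + 1)).image v).card = N + 1 := by
    rw [card_image_of_injOn hinj, card_range]
  have hprod : ∏ c ∈ (range (N + 1)).image v, ‖c‖ ≤ ((n.factorial : ℝ) * h ^ n) ^ 2 := by
    rw [prod_image hinj, ← hN, Finset.prod_range_add]
    have e1 : ∏ i ∈ range n, ‖v i‖ ≤ (n.factorial : ℝ) * h ^ n := by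
      have h1 : ∏ i ∈ range n, ‖v i‖ ≤ ∏ i ∈ range n, (((n - 1 - i : ℕ) : ℝ) + 1) * h := by
        refine prod_le_prod (fun _ _ => norm_nonneg _) fun i hi => ?_
        have hi' : i < n := mem_range.1 hi
        obtain ⟨a1, a2⟩ := hx i (by omega)
        rw [hv]
        simp only
        rw [Complex.norm_real, Real.norm_eq_abs]
        have h2 : ((n - 1 - i : ℕ) : ℝ) + 1 = (n : ℝ) - i := by
          rw [Nat.cast_sub (by omega), Nat.cast_sub (by omega)]
          push_cast
          ring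
        rw [h2]
        have hir : (i : ℝ) + 1 ≤ n := by exact_mod_cast hi'
        have h3 : ((i : ℝ) + 1) * h ≤ n * h := mul_le_mul_of_nonneg_right hir hh.le
        rw [abs_le, hR] at *
        constructor <;> nlinarith
      refine h1.trans (le_of_eq ?_)
      rw [prod_mul_distrib, prod_const, card_range, Finset.prod_range_reflect
        (fun i => ((i : ℕ) : ℝ) + 1) n, ← Finset.prod_range_add_one_eq_factorial]
      push_cast
      rfl
    have e2 : ∏ i ∈ range n, ‖v (n + i)‖ ≤ (n.factorial : ℝ) * h ^ n := by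
      have h1 : ∏ i ∈ range n, ‖v (n + i)‖ ≤ ∏ i ∈ range n, ((i : ℝ) + 1) * h := by
        refine prod_le_prod (fun _ _ => norm_nonneg _) fun i hi => ?_
        have hi' : i < n := mem_range.1 hi
        obtain ⟨a1, a2⟩ := hx (n + i) (by omega)
        rw [hv]
        simp only
        rw [Complex.norm_real, Real.norm_eq_abs]
        push_cast at a1 a2
        have hi0 : (0 : ℝ) ≤ i := Nat.cast_nonneg i
        have h3 : 0 ≤ (i : ℝ) * h := by positivity
        rw [hR] at a1 a2
        rw [abs_of_nonneg (by nlinarith)]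
        nlinarith
      refine h1.trans (le_of_eq ?_)
      rw [prod_mul_distrib, prod_const, card_range, ← Finset.prod_range_add_one_eq_factorial]
      push_cast
      rfl
    rw [sq]
    exact mul_le_mul e1 e2 (prod_nonneg fun _ _ => norm_nonneg _) (by positivity)
  rw [hcard] at hJ
  rw [← hN] at hJ hprod
  set E : ℝ := Real.exp (A + 2 * B * R / Real.pi) with hE
  have hE2 : Real.exp (A + Real.log 2 + 2 * B * R / Real.pi) = 2 * E := by
    rw [show A + Real.log 2 + 2 * B * R / Real.pi = Real.log 2 + (A + 2 * B * R / Real.pi) by ring,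
      Real.exp_add, Real.exp_log (by norm_num)]
  rw [hE2] at hJ
  have hE0 : 0 < E := Real.exp_pos _
  have hfb' := fact_bound hn
  have hfac : (n.factorial : ℝ) ≤ n ^ n * (n * Real.exp (1 - n)) := by
    have h1 : (n.factorial : ℝ) = (n.factorial : ℝ) * Real.exp ((n : ℝ) - 1) * Real.exp (1 - n) := by
      rw [mul_assoc, ← Real.exp_add]
      simp
    rw [h1]
    calc (n.factorial : ℝ) * Real.exp ((n : ℝ) - 1) * Real.exp (1 - n)
        ≤ n ^ (n + 1) * Real.exp (1 - n) := mul_le_mul_of_nonneg_right hfb' (Real.exp_pos _).le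
      _ = n ^ n * (n * Real.exp (1 - n)) := by ring
  have hg0 : ‖g 0‖ ≤ 2 * E * (n * Real.exp (1 - n)) ^ 2 := by
    have hRp : 0 < R ^ (n + n) := by positivity
    have h1 : ‖g 0‖ * R ^ (n + n) ≤ ((n.factorial : ℝ) * h ^ n) ^ 2 * (2 * E) :=
      hJ.trans (mul_le_mul_of_nonneg_right hprod (by positivity))
    have h2 : ((n.factorial : ℝ) * h ^ n) ^ 2 ≤ (n ^ n * (n * Real.exp (1 - n)) * h ^ n) ^ 2 :=
      pow_le_pow_left₀ (by positivity) (mul_le_mul_of_nonneg_right hfac (by positivity)) 2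
    have h3 : (n ^ n * (n * Real.exp (1 - n)) * h ^ n) ^ 2 = (n * Real.exp (1 - n)) ^ 2 * R ^ (n + n) := by
      rw [hR, mul_pow (n : ℝ) h (n + n), pow_add, pow_add]
      ring
    have h4 : ‖g 0‖ * R ^ (n + n) ≤ (2 * E * (n * Real.exp (1 - n)) ^ 2) * R ^ (n + n) := by
      refine h1.trans ((mul_le_mul_of_nonneg_right h2 (by positivity)).trans (le_of_eq ?_))
      rw [h3]
      ring
    exact le_of_mul_le_mul_right h4 hRp
  have hf0 : f 0 = g 0 + P.eval 0 := by simp only [hg]; ring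
  have hP0 := hPb 0 (by rw [norm_zero]; exact hR0.le)
  calc ‖f 0‖ ≤ ‖g 0‖ + ‖P.eval 0‖ := by rw [hf0]; exact norm_add_le _ _
    _ ≤ _ := by linarith

end Pool.Agent.Q32.Smp
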