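import Pool.Agent.Q32.Smp.ZLocal

/-!
# Moments of zeta from samples
-/

set_option autoImplicit false
open MeasureTheory Filter Set

namespace Pool.Agent.Q32.Smp.Mom

/-- `|ζ(1/2 + it)|` -/
noncomputable def Z (t : ℝ) : ℝ := ‖riemannZeta (1 / 2 + t * Complex.I)‖

lemma Z_cont : Continuous Z := by
  rw [continuous_iff_continuousAt]
  intro t
  have hne : (1 / 2 + t * Complex.I : ℂ) ≠ 1 := by
    intro h
    have := congrArg Complex.re h
    simp at this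
  have h1 : ContinuousAt riemannZeta (1 / 2 + t * Complex.I) :=
    (differentiableAt_riemannZeta hne).continuousAt
  have h2 : ContinuousAt (fun x : ℝ => (1 / 2 + x * Complex.I : ℂ)) t := by fun_prop
  exact (ContinuousAt.comp (f := fun x : ℝ => (1 / 2 + x * Complex.I : ℂ)) h1 h2).norm

lemma Z_nonneg (t : ℝ) : 0 ≤ Z t := norm_nonneg _

lemma Zq_nonneg (q t : ℝ) : 0 ≤ Z t ^ q := Real.rpow_nonneg (Z_nonneg t) _

lemma Zq_cont {q : ℝ} (hq : 0 < q) : Continuous fun t => Z t ^ q :=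
  Z_cont.rpow_const fun _ => Or.inr hq.le

lemma gap {θ θ' : ℝ} (hθ : 0 < θ) (h : θ < θ') (W : ℝ) : ∃ T₁ : ℝ, ∀ T t : ℝ, T₁ ≤ T →
    |t - T| ≤ W → θ / Real.log t ≤ θ' / Real.log T ∧ T / 2 ≤ t := by
  refine ⟨max (2 * |W| + 8) (Real.exp (θ' / (θ' - θ) + 1)), fun T t hT ht => ?_⟩
  have h1 : 2 * |W| + 8 ≤ T := (le_max_left _ _).trans hT
  have h2 : Real.exp (θ' / (θ' - θ) + 1) ≤ T := (le_max_right _ _).trans hT
  have hW := le_abs_self W
  have hW0 := abs_nonneg W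
  have h3 : T / 2 ≤ t := by
    have := (abs_le.1 ht).1
    linarith
  have hT0 : 0 < T := by linarith
  have h4 : θ' / (θ' - θ) + 1 ≤ Real.log T := (Real.le_log_iff_exp_le hT0).2 h2
  have hd : 0 < θ' - θ := by linarith
  have h5 : Real.log T - 1 ≤ Real.log t := by
    have h6 : Real.log (T / 2) ≤ Real.log t := Real.log_le_log (by linarith) h3
    rw [Real.log_div hT0.ne' (by norm_num)] at h6
    have h7 : Real.log 2 ≤ 1 := by
      have := Real.log_two_lt_d9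
      linarith
    linarith
  have h8 : θ' ≤ (Real.log T - 1) * (θ' - θ) := by
    have : θ' / (θ' - θ) ≤ Real.log T - 1 := by linarith
    rwa [div_le_iff₀ hd] at this
  have h9 : 0 < Real.log T - 1 := by
    have : 0 < θ' / (θ' - θ) := div_pos (hθ.trans h) hd
    linarith
  refine ⟨?_, h3⟩
  rw [div_le_div_iff₀ (by linarith) (by linarith)]
  nlinarith

lemma rpow_root {q S : ℝ} (hq : 0 < q) (hS : 0 ≤ S) : (S ^ (1 / q)) ^ q = S := by
  rw [← Real.rpow_mul hS, one_div, inv_mul_cancel₀ hq.ne', Real.rpow_one]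

lemma le_root {q S z : ℝ} (hq : 0 < q) (hz : 0 ≤ z) (h : z ^ q ≤ S) : z ≤ S ^ (1 / q) := by
  have h1 : (z ^ q) ^ (1 / q) ≤ S ^ (1 / q) := Real.rpow_le_rpow (Real.rpow_nonneg hz _) h (by positivity)
  rwa [← Real.rpow_mul hz, mul_one_div_cancel hq.ne', Real.rpow_one] at h1

/-- the `q`-th powers at sample points bound the `q`-th power at `T` -/
theorem local_q {θ : ℝ} (hθ : 0 < θ) (hθ2 : θ < 2 * Real.pi) {q : ℝ} (hq : 0 < q)
    {ε : ℝ} (hε : 0 < ε) : ∃ W T₀ : ℝ, 0 < W ∧ ∀ T : ℝ, T₀ ≤ T → ∀ F : Finset ℝ,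
      (∀ t : ℝ, |t - T| ≤ W → ∃ v ∈ F, t ≤ v ∧ v ≤ t + θ / Real.log T) →
      Z T ^ q ≤ T ^ ε * (1 + ∑ v ∈ F, Z v ^ q) := by
  obtain ⟨W, T₀, hW, hloc⟩ := zlocal hθ hθ2 (div_pos hε hq)
  refine ⟨W, max T₀ 1, hW, fun T hT F hF => ?_⟩
  have hT1 : (1 : ℝ) ≤ T := (le_max_right _ _).trans hT
  have hT0 : 0 < T := by linarith
  have hsum : 0 ≤ ∑ v ∈ F, Z v ^ q := Finset.sum_nonneg fun v _ => Zq_nonneg q v
  have hS1 : 1 ≤ 1 + ∑ v ∈ F, Z v ^ q := by linarith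
  have key := hloc T ((le_max_left _ _).trans hT) (F : Set ℝ)
    (fun t ht => by
      obtain ⟨v, hv, h1, h2⟩ := hF t ht
      exact ⟨v, Finset.mem_coe.2 hv, h1, h2⟩) ((1 + ∑ v ∈ F, Z v ^ q) ^ (1 / q))
    (Real.one_le_rpow hS1 (by positivity)) (fun v hv _ => by
      refine le_root hq (Z_nonneg v) ?_
      have := Finset.single_le_sum (f := fun v => Z v ^ q) (fun v _ => Zq_nonneg q v)
        (Finset.mem_coe.1 hv)
      exact (this.trans (by linarith) : Z v ^ q ≤ 1 + ∑ v ∈ F, Z v ^ q))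
  calc Z T ^ q ≤ ((1 + ∑ v ∈ F, Z v ^ q) ^ (1 / q) * T ^ (ε / q)) ^ q :=
        Real.rpow_le_rpow (Z_nonneg T) key hq.le
    _ = T ^ ε * (1 + ∑ v ∈ F, Z v ^ q) := by
        rw [Real.mul_rpow (by positivity) (by positivity), rpow_root hq (by linarith),
          ← Real.rpow_mul hT0.le, div_mul_cancel₀ _ hq.ne', mul_comm]

/-- a sampling set with constant `θ` -/
structure Samples (θ : ℝ) (V : Set ℝ) : Prop where
  meets : ∃ T₀ : ℝ, ∀ t : ℝ, T₀ ≤ t → ∃ v ∈ V, t ≤ v ∧ v ≤ t + θ / Real.log t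
  count : ∀ ε : ℝ, 0 < ε → ∃ C : ℝ, ∀ t : ℝ, 1 ≤ t → ∀ F : Finset ℝ,
    (∀ v ∈ F, v ∈ V ∧ t ≤ v ∧ v ≤ t + 1) → (F.card : ℝ) ≤ C * t ^ ε

/-- the `q`-th moment up to `T` is `O(T^(A + ε))` -/
def MomentBound (q A : ℝ) : Prop := ∀ ε : ℝ, 0 < ε → ∃ C : ℝ, ∀ T : ℝ, 1 ≤ T →
  ∫ t in (1 : ℝ)..T, Z t ^ q ≤ C * T ^ (A + ε)

/-- the sum of the `q`-th powers over the samples up to `T` is `O(T^(A + ε))` -/
def SampleBound (V : Set ℝ) (q A : ℝ) : Prop := ∀ ε : ℝ, 0 < ε → ∃ C : ℝ, ∀ T : ℝ, 1 ≤ T →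
  ∀ F : Finset ℝ, (∀ v ∈ F, v ∈ V ∧ 1 ≤ v ∧ v ≤ T) → ∑ v ∈ F, Z v ^ q ≤ C * T ^ (A + ε)

/-- windows of integer length -/
lemma window {V : Set ℝ} {ε C : ℝ} (hC : 0 ≤ C) (hε : 0 < ε) (h : ∀ t : ℝ, 1 ≤ t → ∀ F : Finset ℝ,
    (∀ v ∈ F, v ∈ V ∧ t ≤ v ∧ v ≤ t + 1) → (F.card : ℝ) ≤ C * t ^ ε) (m : ℕ) : ∀ (x Y : ℝ), 1 ≤ x →
    x + m ≤ Y → ∀ F : Finset ℝ, (∀ v ∈ F, v ∈ V ∧ x ≤ v ∧ v ≤ x + m) →
    (F.card : ℝ) ≤ (m + 1) * (C * Y ^ ε) := by
  classical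
  induction m with
  | zero =>
    intro x Y hx hY F hF
    have h1 := h x hx F fun v hv => ⟨(hF v hv).1, (hF v hv).2.1, by
      have := (hF v hv).2.2
      push_cast at this
      linarith⟩
    refine h1.trans ?_
    push_cast at hY ⊢
    rw [zero_add, one_mul]
    exact mul_le_mul_of_nonneg_left (Real.rpow_le_rpow (by linarith) (by linarith) hε.le) hC
  | succ m ih =>
    intro x Y hx hY F hF
    push_cast at hY hF ⊢
    have h1 := h x hx (F.filter fun v => v ≤ x + 1) fun v hv => by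
      rw [Finset.mem_filter] at hv
      exact ⟨(hF v hv.1).1, (hF v hv.1).2.1, hv.2⟩
    have h2 := ih (x + 1) Y (by linarith) (by linarith) (F.filter fun v => ¬ v ≤ x + 1) fun v hv => by
      rw [Finset.mem_filter] at hv
      have := (hF v hv.1).2.2
      exact ⟨(hF v hv.1).1, (not_le.1 hv.2).le, by linarith⟩
    have h3 : F.card = (F.filter fun v => v ≤ x + 1).card + (F.filter fun v => ¬ v ≤ x + 1).card :=
      (Finset.card_filter_add_card_filter_not (fun v => v ≤ x + 1)).symm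
    have h4 : C * x ^ ε ≤ C * Y ^ ε := by
      have : (0 : ℝ) ≤ m := Nat.cast_nonneg m
      exact mul_le_mul_of_nonneg_left (Real.rpow_le_rpow (by linarith) (by linarith) hε.le) hC
    rw [h3]
    push_cast
    linarith

end Pool.Agent.Q32.Smp.Mom
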