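import Pool.Agent.Q32.Smp.Mom

/-!
# Moments of zeta from samples: the two pointwise bounds in sets
-/

set_option autoImplicit false
open MeasureTheory Filter Set

namespace Pool.Agent.Q32.Smp.Mom

lemma Zq_int {q : ℝ} (hq : 0 < q) (a b : ℝ) : IntervalIntegrable (fun t => Z t ^ q) volume a b :=
  (Zq_cont hq).intervalIntegrable a b

/-- pointwise bound by samples of a set -/
theorem by_samples {θ : ℝ} (hθ : 0 < θ) (hθ2 : θ < 2 * Real.pi) {V : Set ℝ}
    (hV : ∃ T₀ : ℝ, ∀ t : ℝ, T₀ ≤ t → ∃ v ∈ V, t ≤ v ∧ v ≤ t + θ / Real.log t) {q : ℝ}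
    (hq : 0 < q) {ε : ℝ} (hε : 0 < ε) : ∃ W T₁ : ℝ, 0 < W ∧ 1 ≤ T₁ ∧ ∀ T : ℝ, T₁ ≤ T →
      ∀ F : Finset ℝ, (∀ v ∈ V, |v - T| ≤ W → v ∈ F) → Z T ^ q ≤ T ^ ε * (1 + ∑ v ∈ F, Z v ^ q) := by
  set θ' : ℝ := (θ + 2 * Real.pi) / 2 with hθ'
  have hθ'0 : 0 < θ' := by rw [hθ']; positivity
  have hθ'1 : θ < θ' := by rw [hθ']; linarith
  have hθ'2 : θ' < 2 * Real.pi := by rw [hθ']; linarith
  obtain ⟨T₀, hT₀⟩ := hV
  obtain ⟨W, T₂, hW, hloc⟩ := local_q hθ'0 hθ'2 hq hε
  obtain ⟨T₁, hT₁⟩ := gap hθ hθ'1 W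
  refine ⟨W + θ' + 1, max (max T₁ T₂) (max 3 (2 * T₀)), by positivity,
    le_trans (by norm_num) ((le_max_left (3 : ℝ) _).trans (le_max_right _ _)), fun T hT F hF => ?_⟩
  have h1 : T₁ ≤ T := ((le_max_left _ _).trans (le_max_left _ _)).trans hT
  have h2 : T₂ ≤ T := ((le_max_right _ _).trans (le_max_left _ _)).trans hT
  have h3 : (3 : ℝ) ≤ T := ((le_max_left _ _).trans (le_max_right _ _)).trans hT
  have h4 : 2 * T₀ ≤ T := ((le_max_right _ _).trans (le_max_right _ _)).trans hT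
  have hlog : 1 ≤ Real.log T := by
    rw [Real.le_log_iff_exp_le (by linarith)]
    have := Real.exp_one_lt_d9
    linarith
  refine hloc T h2 F fun t ht => ?_
  obtain ⟨h5, h6⟩ := hT₁ T t h1 ht
  obtain ⟨v, hv, hv1, hv2⟩ := hT₀ t (by linarith)
  have h7 : θ' / Real.log T ≤ θ' := div_le_self hθ'0.le hlog
  have h8 := abs_le.1 ht
  refine ⟨v, hF v hv (abs_le.2 ⟨by linarith, by linarith⟩), hv1, by linarith⟩

/-- pointwise bound by a local moment -/
theorem by_integral {q : ℝ} (hq : 0 < q) {ε : ℝ} (hε : 0 < ε) : ∃ W T₁ : ℝ, 0 < W ∧ W + 1 ≤ T₁ ∧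
    ∀ T : ℝ, T₁ ≤ T → Z T ^ q ≤ T ^ ε * (1 + ∫ t in (T - W)..(T + W), Z t ^ q) := by
  have h12 : (1 : ℝ) < 2 * Real.pi := by have := Real.pi_gt_three; linarith
  obtain ⟨W, T₀, hW, hloc⟩ := zlocal one_pos h12 (div_pos (half_pos hε) hq)
  obtain ⟨T₂, hT₂⟩ := eventually_atTop.1
    ((isLittleO_log_rpow_atTop (half_pos hε)).bound (one_pos))
  refine ⟨W + 1, max (max T₀ T₂) (max 3 (W + 2)), by positivity,
    le_trans (by linarith) ((le_max_right (3 : ℝ) (W + 2)).trans (le_max_right _ _)),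
    fun T hT => ?_⟩
  have h1 : T₀ ≤ T := ((le_max_left _ _).trans (le_max_left _ _)).trans hT
  have h2 : T₂ ≤ T := ((le_max_right _ _).trans (le_max_left _ _)).trans hT
  have h3 : (3 : ℝ) ≤ T := ((le_max_left _ _).trans (le_max_right _ _)).trans hT
  have hT0 : 0 < T := by linarith
  have hlog : 1 ≤ Real.log T := by
    rw [Real.le_log_iff_exp_le (by linarith)]
    have := Real.exp_one_lt_d9
    linarith
  have hlogT : Real.log T ≤ T ^ (ε / 2) := by
    have := hT₂ T h2
    rw [one_mul, Real.norm_of_nonneg (by linarith), Real.norm_of_nonneg (by positivity)] at this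
    exact this
  set I : ℝ := ∫ t in (T - (W + 1))..(T + (W + 1)), Z t ^ q with hI
  have hI0 : 0 ≤ I := intervalIntegral.integral_nonneg (by linarith) fun t _ => Zq_nonneg q t
  set S : ℝ := Real.log T * (1 + I) with hS
  have hS1 : 1 ≤ S := by rw [hS]; nlinarith
  have key := hloc T h1 {v : ℝ | Z v ^ q ≤ S} (fun t ht => by
      by_contra hcon
      push Not at hcon
      have h8 := abs_le.1 ht
      have hl : 1 / Real.log T ≤ 1 := by rw [div_le_one (by linarith)]; exact hlog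
      have hl0 : 0 < 1 / Real.log T := by positivity
      have h9 : ∫ u in t..(t + 1 / Real.log T), S ≤ ∫ u in t..(t + 1 / Real.log T), Z u ^ q := by
        refine intervalIntegral.integral_mono_on (by linarith) (by simp) (Zq_int hq _ _)
          fun u hu => ?_
        by_contra hc
        push Not at hc
        have := hcon u hc.le hu.1
        linarith [hu.2]
      rw [intervalIntegral.integral_const, smul_eq_mul, add_sub_cancel_left] at h9
      have h10 : ∫ u in t..(t + 1 / Real.log T), Z u ^ q ≤ I := by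
        rw [hI]
        refine intervalIntegral.integral_mono_interval (by linarith) (by linarith) (by linarith)
          (Eventually.of_forall fun u => Zq_nonneg q u) (Zq_int hq _ _)
      have h11 : 1 / Real.log T * S = 1 + I := by
        rw [hS]; field_simp
      linarith) (S ^ (1 / q)) (Real.one_le_rpow hS1 (by positivity)) (fun v hv _ =>
        le_root hq (Z_nonneg v) hv)
  calc Z T ^ q ≤ (S ^ (1 / q) * T ^ (ε / 2 / q)) ^ q := Real.rpow_le_rpow (Z_nonneg T) key hq.le
    _ = S * T ^ (ε / 2) := by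
        rw [Real.mul_rpow (by positivity) (by positivity), rpow_root hq (by linarith),
          ← Real.rpow_mul hT0.le, div_mul_cancel₀ _ hq.ne']
    _ = Real.log T * T ^ (ε / 2) * (1 + I) := by rw [hS]; ring
    _ ≤ T ^ (ε / 2) * T ^ (ε / 2) * (1 + I) := by
        refine mul_le_mul_of_nonneg_right ?_ (by linarith)
        exact mul_le_mul_of_nonneg_right hlogT (by positivity)
    _ = T ^ ε * (1 + I) := by rw [← Real.rpow_add hT0, add_halves]

end Pool.Agent.Q32.Smp.Mom
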