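import Pool.Agent.Q32.Smp.Mom2

/-!
# Moments of zeta from samples: the equivalence
-/

set_option autoImplicit false
open MeasureTheory Filter Set

namespace Pool.Agent.Q32.Smp.Mom

/-- integral of the indicator function of an interval -/
lemma int_ind {a b v W c : ℝ} (hab : a ≤ b) (hW : 0 ≤ W) (hc : 0 ≤ c) :
    ∫ t in a..b, (Icc (v - W) (v + W)).indicator (fun _ => c) t ≤ 2 * W * c := by
  rw [intervalIntegral.integral_of_le hab, setIntegral_indicator measurableSet_Icc,
    setIntegral_const, smul_eq_mul]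
  refine mul_le_mul_of_nonneg_right ?_ hc
  calc volume.real (Ioc a b ∩ Icc (v - W) (v + W)) ≤ volume.real (Icc (v - W) (v + W)) :=
        measureReal_mono inter_subset_right (by simp)
    _ = 2 * W := by rw [Real.volume_real_Icc_of_le (by linarith)]; ring

lemma ind_int (a b v W c : ℝ) :
    IntervalIntegrable ((Icc (v - W) (v + W)).indicator (fun _ : ℝ => c)) volume a b :=
  ((integrable_indicator_iff measurableSet_Icc).2
    (integrableOn_const (by simp))).intervalIntegrable

lemma count' {θ : ℝ} {V : Set ℝ} (hV : Samples θ V) {ε : ℝ} (hε : 0 < ε) : ∃ C : ℝ, 0 ≤ C ∧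
    ∀ t : ℝ, 1 ≤ t → ∀ F : Finset ℝ, (∀ v ∈ F, v ∈ V ∧ t ≤ v ∧ v ≤ t + 1) →
      (F.card : ℝ) ≤ C * t ^ ε := by
  obtain ⟨C, hC⟩ := hV.count ε hε
  exact ⟨max C 0, le_max_right _ _, fun t ht F hF => (hC t ht F hF).trans
    (mul_le_mul_of_nonneg_right (le_max_left _ _) (Real.rpow_nonneg (by linarith) _))⟩

lemma finite_upto {θ : ℝ} {V : Set ℝ} (hV : Samples θ V) (Y : ℝ) : (V ∩ Icc 1 Y).Finite := by
  by_contra hinf
  obtain ⟨C, hC0, hC⟩ := count' hV one_pos
  have hinf' : (V ∩ Icc 1 Y).Infinite := hinf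
  set m : ℕ := ⌈Y⌉₊
  have hm : Y ≤ m := Nat.le_ceil Y
  obtain ⟨F, hF, hcard⟩ := hinf'.exists_subset_card_eq
    (⌈((m : ℝ) + 1) * (C * (1 + m) ^ (1 : ℝ))⌉₊ + 1)
  have h1 := window hC0 one_pos hC m 1 (1 + m) le_rfl le_rfl F fun v hv => by
    have := hF (Finset.mem_coe.2 hv)
    exact ⟨this.1, this.2.1, by linarith [this.2.2]⟩
  rw [hcard] at h1
  push_cast at h1
  have h2 := Nat.le_ceil (((m : ℝ) + 1) * (C * (1 + m) ^ (1 : ℝ)))
  linarith

/-- the moment bound from the bound for the samples -/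
theorem moment_of_samples {θ : ℝ} (hθ : 0 < θ) (hθ2 : θ < 2 * Real.pi) {V : Set ℝ}
    (hV : Samples θ V) {q A : ℝ} (hq : 0 < q) (hA : 1 ≤ A) (h : SampleBound V q A) :
    MomentBound q A := by
  classical
  intro ε hε
  have hε2 := half_pos hε
  obtain ⟨W, T₁, hW, hT₁, hpt⟩ := by_samples hθ hθ2 hV.meets hq hε2
  obtain ⟨C, hC⟩ := h (ε / 2) hε2
  set T₂ : ℝ := max T₁ (W + 1) with hT₂
  have hT₂1 : 1 ≤ T₂ := hT₁.trans (le_max_left _ _)
  set C₀ : ℝ := ∫ t in (1 : ℝ)..T₂, Z t ^ q with hC₀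
  have hC₀0 : 0 ≤ C₀ := intervalIntegral.integral_nonneg hT₂1 fun t _ => Zq_nonneg q t
  set K : ℝ := 1 + 2 * W * (|C| * (1 + W) ^ (A + ε / 2)) with hK
  have hK0 : 0 ≤ K := by positivity
  refine ⟨C₀ + K, fun T hT => ?_⟩
  have hT0 : 0 < T := by linarith
  have hTA : 1 ≤ T ^ (A + ε) := Real.one_le_rpow hT (by linarith)
  rcases le_or_gt T T₂ with hTT | hTT
  · have h1 : ∫ t in (1 : ℝ)..T, Z t ^ q ≤ C₀ :=
      intervalIntegral.integral_mono_interval le_rfl hT hTT
        (Eventually.of_forall fun u => Zq_nonneg q u) (Zq_int hq _ _)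
    nlinarith
  · have hfin := finite_upto hV (T + W)
    set F : Finset ℝ := hfin.toFinset with hF
    have hmem : ∀ v : ℝ, v ∈ F ↔ v ∈ V ∧ 1 ≤ v ∧ v ≤ T + W := fun v => by
      rw [hF, Set.Finite.mem_toFinset]; rfl
    have hsum : ∑ v ∈ F, Z v ^ q ≤ C * (T + W) ^ (A + ε / 2) :=
      hC (T + W) (by linarith) F fun v hv => (hmem v).1 hv
    have hpt2 : ∀ t ∈ Icc T₂ T, Z t ^ q ≤ T ^ (ε / 2) *
        (1 + ∑ v ∈ F, (Icc (v - W) (v + W)).indicator (fun _ => Z v ^ q) t) := by
      intro t ht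
      have ht1 : T₁ ≤ t := (le_max_left _ _).trans ht.1
      have ht2 : W + 1 ≤ t := (le_max_right _ _).trans ht.1
      have h1 := hpt t ht1 (F.filter fun v => v - W ≤ t ∧ t ≤ v + W) (fun v hv hvt => by
        have h2 := abs_le.1 hvt
        rw [Finset.mem_filter, hmem]
        exact ⟨⟨hv, by linarith, by linarith [ht.2]⟩, by linarith, by linarith⟩)
      rw [Finset.sum_filter] at h1
      have e : (∑ v ∈ F, if v - W ≤ t ∧ t ≤ v + W then Z v ^ q else 0) =
          ∑ v ∈ F, (Icc (v - W) (v + W)).indicator (fun _ => Z v ^ q) t :=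
        Finset.sum_congr rfl fun v _ => by
          simp only [Set.indicator, mem_Icc]
      rw [e] at h1
      refine h1.trans (mul_le_mul_of_nonneg_right
        (Real.rpow_le_rpow (by linarith) ht.2 hε2.le) ?_)
      have : 0 ≤ ∑ v ∈ F, (Icc (v - W) (v + W)).indicator (fun _ => Z v ^ q) t :=
        Finset.sum_nonneg fun v _ => Set.indicator_nonneg (fun _ _ => Zq_nonneg q v) _
      linarith
    have hint : IntervalIntegrable (fun t => T ^ (ε / 2) *
        (1 + ∑ v ∈ F, (Icc (v - W) (v + W)).indicator (fun _ => Z v ^ q) t)) volume T₂ T := by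
      refine IntervalIntegrable.const_mul (intervalIntegrable_const.add ?_) _
      have := IntervalIntegrable.sum F (f := fun v => (Icc (v - W) (v + W)).indicator
        (fun _ => Z v ^ q)) (μ := volume) (a := T₂) (b := T) fun v _ => ind_int _ _ _ _ _
      refine this.congr fun t _ => ?_
      simp only [Finset.sum_apply]
    have h2 : ∫ t in T₂..T, Z t ^ q ≤ T ^ (ε / 2) * (T + 2 * W * ∑ v ∈ F, Z v ^ q) := by
      refine (intervalIntegral.integral_mono_on hTT.le (Zq_int hq _ _) hint hpt2).trans ?_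
      rw [intervalIntegral.integral_const_mul]
      refine mul_le_mul_of_nonneg_left ?_ (Real.rpow_nonneg hT0.le _)
      rw [intervalIntegral.integral_add intervalIntegrable_const (by
        have := IntervalIntegrable.sum F (f := fun v => (Icc (v - W) (v + W)).indicator
          (fun _ => Z v ^ q)) (μ := volume) (a := T₂) (b := T) fun v _ => ind_int _ _ _ _ _
        refine this.congr fun t _ => ?_
        simp only [Finset.sum_apply]),
        intervalIntegral.integral_const, intervalIntegral.integral_finsetSum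
          (fun v _ => ind_int _ _ _ _ _), smul_eq_mul, mul_one, Finset.mul_sum]
      refine add_le_add (by linarith) (Finset.sum_le_sum fun v _ => ?_)
      exact int_ind hTT.le hW.le (Zq_nonneg q v)
    have h3 : ∫ t in (1 : ℝ)..T, Z t ^ q = C₀ + ∫ t in T₂..T, Z t ^ q :=
      (intervalIntegral.integral_add_adjacent_intervals (Zq_int hq _ _) (Zq_int hq _ _)).symm
    have h4 : T ^ (ε / 2) * T ^ (A + ε / 2) = T ^ (A + ε) := by
      rw [← Real.rpow_add hT0]; congr 1; ring
    have h5 : (T + W) ^ (A + ε / 2) ≤ (1 + W) ^ (A + ε / 2) * T ^ (A + ε / 2) := by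
      rw [← Real.mul_rpow (by linarith) hT0.le]
      exact Real.rpow_le_rpow (by linarith) (by nlinarith) (by linarith)
    have h6 : T ≤ T ^ (A + ε / 2) := by
      nth_rw 1 [← Real.rpow_one T]
      exact Real.rpow_le_rpow_of_exponent_le hT (by linarith)
    have h7 : ∑ v ∈ F, Z v ^ q ≤ |C| * ((1 + W) ^ (A + ε / 2) * T ^ (A + ε / 2)) :=
      hsum.trans ((mul_le_mul_of_nonneg_right (le_abs_self C)
        (Real.rpow_nonneg (by linarith) _)).trans (mul_le_mul_of_nonneg_left h5 (abs_nonneg C)))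
    have h8 : T + 2 * W * ∑ v ∈ F, Z v ^ q ≤ K * T ^ (A + ε / 2) := by
      rw [hK]
      have : 2 * W * ∑ v ∈ F, Z v ^ q ≤ 2 * W * (|C| * ((1 + W) ^ (A + ε / 2) * T ^ (A + ε / 2))) :=
        mul_le_mul_of_nonneg_left h7 (by positivity)
      linarith
    have h9 : ∫ t in T₂..T, Z t ^ q ≤ K * T ^ (A + ε) := by
      rw [← h4]
      refine h2.trans ((mul_le_mul_of_nonneg_left h8 (Real.rpow_nonneg hT0.le _)).trans
        (le_of_eq (by ring)))
    rw [h3]
    nlinarith

end Pool.Agent.Q32.Smp.Mom
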