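import Pool.Agent.Q32.Smp.Mom3

/-!
# Moments of zeta from samples: the converse
-/

set_option autoImplicit false
open MeasureTheory Filter Set

namespace Pool.Agent.Q32.Smp.Mom

/-- a short integral as an integral over a long interval -/
lemma short_le {q : ℝ} (hq : 0 < q) {a b v W : ℝ} (hab : a ≤ b) (hW : 0 ≤ W) (ha : a ≤ v - W)
    (hb : v + W ≤ b) : ∫ t in (v - W)..(v + W), Z t ^ q ≤
      ∫ t in a..b, (Icc (v - W) (v + W)).indicator (fun t => Z t ^ q) t := by
  rw [intervalIntegral.integral_of_le hab, setIntegral_indicator measurableSet_Icc,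
    intervalIntegral.integral_of_le (by linarith)]
  refine setIntegral_mono_set ?_ (Eventually.of_forall fun t => Zq_nonneg q t)
    (Eventually.of_forall fun t ht => ?_)
  · exact ((Zq_cont hq).integrableOn_Icc (a := v - W) (b := v + W)).mono_set inter_subset_right
  · exact ⟨⟨lt_of_le_of_lt ha ht.1, ht.2.trans hb⟩, ht.1.le, ht.2⟩

lemma ind_int' {q : ℝ} (hq : 0 < q) (a b v W : ℝ) :
    IntervalIntegrable ((Icc (v - W) (v + W)).indicator (fun t : ℝ => Z t ^ q)) volume a b :=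
  ((integrable_indicator_iff measurableSet_Icc).2
    ((Zq_cont hq).integrableOn_Icc)).intervalIntegrable

/-- the bound for the samples from the moment bound -/
theorem samples_of_moment {θ : ℝ} {V : Set ℝ}
    (hV : Samples θ V) {q A : ℝ} (hq : 0 < q) (hA : 1 ≤ A) (h : MomentBound q A) :
    SampleBound V q A := by
  classical
  intro ε hε
  have hε3 : 0 < ε / 3 := by linarith
  obtain ⟨W, T₁, hW, hWT, hpt⟩ := by_integral hq hε3
  obtain ⟨C₁, hC₁⟩ := h (ε / 3) hε3
  obtain ⟨C₂, hC₂0, hC₂⟩ := count' hV hε3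
  have hfin := finite_upto hV T₁
  set B : ℝ := ∑ v ∈ hfin.toFinset, Z v ^ q with hB
  have hB0 : 0 ≤ B := Finset.sum_nonneg fun v _ => Zq_nonneg q v
  set m : ℕ := ⌈2 * W⌉₊ with hm
  have hm2 : 2 * W ≤ m := Nat.le_ceil _
  have hm0 : (0 : ℝ) ≤ m := Nat.cast_nonneg m
  set K : ℝ := 3 * (C₂ * 3 ^ (ε / 3)) +
    ((m : ℝ) + 1) * (C₂ * (1 + m) ^ (ε / 3)) * (|C₁| * (1 + W) ^ (A + ε / 3)) with hK
  have hK0 : 0 ≤ K := by positivity
  refine ⟨B + K, fun T hT F hF => ?_⟩
  have hT0 : 0 < T := by linarith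
  have hTA : 1 ≤ T ^ (A + ε) := Real.one_le_rpow hT (by linarith)
  -- the small samples
  have hsmall : ∑ v ∈ F.filter (fun v => v < T₁), Z v ^ q ≤ B := by
    refine Finset.sum_le_sum_of_subset_of_nonneg (fun v hv => ?_) fun v _ _ => Zq_nonneg q v
    rw [Finset.mem_filter] at hv
    rw [Set.Finite.mem_toFinset]
    exact ⟨(hF v hv.1).1, (hF v hv.1).2.1, hv.2.le⟩
  set G : Finset ℝ := F.filter fun v => ¬ v < T₁ with hG
  have hGm : ∀ v ∈ G, v ∈ V ∧ T₁ ≤ v ∧ v ≤ T := fun v hv => by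
    rw [hG, Finset.mem_filter] at hv
    exact ⟨(hF v hv.1).1, not_lt.1 hv.2, (hF v hv.1).2.2⟩
  -- the number of large samples
  have hcard : (G.card : ℝ) ≤ 3 * T * (C₂ * (3 * T) ^ (ε / 3)) := by
    have h1 := window hC₂0 hε3 hC₂ ⌈T⌉₊ 1 (1 + ⌈T⌉₊) le_rfl le_rfl G fun v hv => by
      have h2 := hGm v hv
      exact ⟨h2.1, by linarith [h2.2.1], by linarith [h2.2.2, Nat.le_ceil T]⟩
    have h3 : ((⌈T⌉₊ : ℕ) : ℝ) < T + 1 := Nat.ceil_lt_add_one hT0.le
    refine h1.trans ?_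
    have h4 : ((1 : ℝ) + (⌈T⌉₊ : ℕ)) ^ (ε / 3) ≤ (3 * T) ^ (ε / 3) :=
      Real.rpow_le_rpow (by positivity) (by linarith) hε3.le
    exact mul_le_mul (by linarith) (mul_le_mul_of_nonneg_left h4 hC₂0) (by positivity)
      (by positivity)
  -- the number of samples in a window
  have hwin : ∀ t : ℝ, ((G.filter fun v => v - W ≤ t ∧ t ≤ v + W).card : ℝ) ≤
      ((m : ℝ) + 1) * (C₂ * (T + m) ^ (ε / 3)) := by
    intro t
    rcases le_or_gt (t - W) T with htT | htT
    · refine window hC₂0 hε3 hC₂ m (max 1 (t - W)) (T + m) (le_max_left _ _) ?_ _ fun v hv => ?_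
      · have : max 1 (t - W) ≤ T := max_le hT htT
        linarith
      · rw [Finset.mem_filter] at hv
        have h2 := hGm v hv.1
        refine ⟨h2.1, max_le (by linarith [h2.2.1]) (by linarith [hv.2.2]), ?_⟩
        have h3 := le_max_right 1 (t - W)
        linarith [hv.2.1]
    · have : G.filter (fun v => v - W ≤ t ∧ t ≤ v + W) = ∅ := by
        refine Finset.filter_eq_empty_iff.2 fun v hv hc => ?_
        have h2 := (hGm v hv).2.2
        linarith [hc.2]
      rw [this]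
      simp only [Finset.card_empty, Nat.cast_zero]
      positivity
  -- the large samples
  have hlarge : ∑ v ∈ G, Z v ^ q ≤ T ^ (ε / 3) * (G.card +
      ((m : ℝ) + 1) * (C₂ * (T + m) ^ (ε / 3)) * ∫ t in (1 : ℝ)..(T + W), Z t ^ q) := by
    have h1 : ∀ v ∈ G, Z v ^ q ≤ T ^ (ε / 3) * (1 +
        ∫ t in (1 : ℝ)..(T + W), (Icc (v - W) (v + W)).indicator (fun t => Z t ^ q) t) := by
      intro v hv
      have h2 := hGm v hv
      have h3 := short_le hq (a := 1) (b := T + W) (v := v) (W := W) (by linarith) hW.le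
        (by linarith [h2.2.1]) (by linarith [h2.2.2])
      have h4 : 0 ≤ ∫ t in (v - W)..(v + W), Z t ^ q :=
        intervalIntegral.integral_nonneg (by linarith) fun t _ => Zq_nonneg q t
      refine (hpt v h2.2.1).trans (mul_le_mul (Real.rpow_le_rpow (by linarith [h2.2.1]) h2.2.2
        hε3.le) (by linarith) (by linarith) (Real.rpow_nonneg hT0.le _))
    refine (Finset.sum_le_sum h1).trans ?_
    rw [← Finset.mul_sum]
    refine mul_le_mul_of_nonneg_left ?_ (Real.rpow_nonneg hT0.le _)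
    rw [Finset.sum_add_distrib, Finset.sum_const, nsmul_eq_mul, mul_one,
      ← intervalIntegral.integral_finsetSum (fun v _ => ind_int' hq _ _ _ _)]
    refine add_le_add le_rfl ?_
    rw [← intervalIntegral.integral_const_mul]
    refine intervalIntegral.integral_mono_on (by linarith) ?_ ((Zq_int hq _ _).const_mul _)
      fun t _ => ?_
    · have := IntervalIntegrable.sum G (f := fun v => (Icc (v - W) (v + W)).indicator
        (fun t => Z t ^ q)) (μ := volume) (a := 1) (b := T + W) fun v _ => ind_int' hq _ _ _ _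
      refine this.congr fun t _ => ?_
      simp only [Finset.sum_apply]
    · have e : (∑ v ∈ G, (Icc (v - W) (v + W)).indicator (fun t => Z t ^ q) t) =
          ((G.filter fun v => v - W ≤ t ∧ t ≤ v + W).card : ℝ) * Z t ^ q := by
        have e0 : (∑ v ∈ G, (Icc (v - W) (v + W)).indicator (fun t => Z t ^ q) t) =
            ∑ v ∈ G, if v - W ≤ t ∧ t ≤ v + W then Z t ^ q else 0 :=
          Finset.sum_congr rfl fun v _ => by simp only [Set.indicator, mem_Icc]
        rw [e0, ← Finset.sum_filter (fun v => v - W ≤ t ∧ t ≤ v + W) (fun _ => Z t ^ q),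
          Finset.sum_const, nsmul_eq_mul]
      rw [e]
      exact mul_le_mul_of_nonneg_right (hwin t) (Zq_nonneg q t)
  have hmom : ∫ t in (1 : ℝ)..(T + W), Z t ^ q ≤ |C₁| * ((1 + W) ^ (A + ε / 3) * T ^ (A + ε / 3)) := by
    refine (hC₁ (T + W) (by linarith)).trans ?_
    refine (mul_le_mul_of_nonneg_right (le_abs_self C₁) (Real.rpow_nonneg (by linarith) _)).trans
      (mul_le_mul_of_nonneg_left ?_ (abs_nonneg C₁))
    rw [← Real.mul_rpow (by linarith) hT0.le]
    exact Real.rpow_le_rpow (by linarith) (by nlinarith) (by linarith)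
  have hTm : (T + m) ^ (ε / 3) ≤ (1 + m) ^ (ε / 3) * T ^ (ε / 3) := by
    rw [← Real.mul_rpow (by linarith) hT0.le]
    exact Real.rpow_le_rpow (by linarith) (by nlinarith) hε3.le
  have e1 : T ^ (ε / 3) * (3 * T * (C₂ * (3 * T) ^ (ε / 3))) ≤
      3 * (C₂ * 3 ^ (ε / 3)) * T ^ (A + ε) := by
    rw [Real.mul_rpow (by norm_num) hT0.le]
    have h1 : T ^ (ε / 3) * T * T ^ (ε / 3) ≤ T ^ (A + ε) := by
      nth_rw 2 [← Real.rpow_one T]
      rw [← Real.rpow_add hT0, ← Real.rpow_add hT0]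
      exact Real.rpow_le_rpow_of_exponent_le hT (by linarith)
    have h2 : 0 ≤ 3 * (C₂ * (3 : ℝ) ^ (ε / 3)) := by positivity
    calc T ^ (ε / 3) * (3 * T * (C₂ * (3 ^ (ε / 3) * T ^ (ε / 3))))
        = 3 * (C₂ * 3 ^ (ε / 3)) * (T ^ (ε / 3) * T * T ^ (ε / 3)) := by ring
      _ ≤ _ := mul_le_mul_of_nonneg_left h1 h2
  have e2 : T ^ (ε / 3) * (((m : ℝ) + 1) * (C₂ * ((1 + m) ^ (ε / 3) * T ^ (ε / 3))) *
      (|C₁| * ((1 + W) ^ (A + ε / 3) * T ^ (A + ε / 3)))) =
      ((m : ℝ) + 1) * (C₂ * (1 + m) ^ (ε / 3)) * (|C₁| * (1 + W) ^ (A + ε / 3)) * T ^ (A + ε) := by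
    have h1 : T ^ (ε / 3) * T ^ (ε / 3) * T ^ (A + ε / 3) = T ^ (A + ε) := by
      rw [← Real.rpow_add hT0, ← Real.rpow_add hT0]
      congr 1; ring
    rw [← h1]; ring
  have hI0 : 0 ≤ ∫ t in (1 : ℝ)..(T + W), Z t ^ q :=
    intervalIntegral.integral_nonneg (by linarith) fun t _ => Zq_nonneg q t
  have hbig : ∑ v ∈ G, Z v ^ q ≤ K * T ^ (A + ε) := by
    refine hlarge.trans ?_
    rw [mul_add]
    have h1 : T ^ (ε / 3) * (G.card : ℝ) ≤ 3 * (C₂ * 3 ^ (ε / 3)) * T ^ (A + ε) :=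
      (mul_le_mul_of_nonneg_left hcard (Real.rpow_nonneg hT0.le _)).trans e1
    have h2 : T ^ (ε / 3) * (((m : ℝ) + 1) * (C₂ * (T + m) ^ (ε / 3)) *
        ∫ t in (1 : ℝ)..(T + W), Z t ^ q) ≤
        ((m : ℝ) + 1) * (C₂ * (1 + m) ^ (ε / 3)) * (|C₁| * (1 + W) ^ (A + ε / 3)) * T ^ (A + ε) := by
      rw [← e2]
      refine mul_le_mul_of_nonneg_left ?_ (Real.rpow_nonneg hT0.le _)
      refine mul_le_mul ?_ hmom hI0 (by positivity)
      exact mul_le_mul_of_nonneg_left (mul_le_mul_of_nonneg_left hTm hC₂0) (by positivity)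
    rw [hK, add_mul]
    linarith
  have hsplit : ∑ v ∈ F, Z v ^ q = ∑ v ∈ F.filter (fun v => v < T₁), Z v ^ q + ∑ v ∈ G, Z v ^ q :=
    (Finset.sum_filter_add_sum_filter_not F _ _).symm
  rw [hsplit]
  nlinarith

end Pool.Agent.Q32.Smp.Mom
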