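import Pool.Agent.Q32.Smp.Loc
import Pool.Agent.H983R4.GL.F3

/-!
# The two-sided local sampling inequality

`2n` nodes, one in each of the intervals of length `(1 - δ) h` in the middle of the `2n` intervals of length
`h` of `[-nh, nh]`; Lagrange interpolation and Jensen's inequality.
-/

set_option autoImplicit false

open Polynomial Finset
open scoped ComplexConjugate

namespace Pool.Agent.Q32.Smp

/-- the sum of the Lagrange basis polynomials -/
lemma basis_bound2 {N : ℕ} {h δ R : ℝ} (hh : 0 < h) (hδ : 0 < δ) (hδ1 : δ ≤ 1)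
    (hR : 2 * R = (N + 1) * h) (x : ℕ → ℝ)
    (hsep : ∀ i j : ℕ, i ≤ N → j ≤ N → i ≠ j → δ * h * |(i : ℝ) - j| ≤ |x j - x i|)
    (hxR : ∀ i ≤ N, |x i| ≤ R) {z : ℂ} (hz : ‖z‖ ≤ R) :
    ∑ j ∈ range (N + 1), ‖(Lagrange.basis (range (N + 1)) (fun i => ((x i : ℝ) : ℂ)) j).eval z‖ ≤
      (6 / δ) ^ (N + 1) := by
  have hone : ∀ j ∈ range (N + 1),
      ‖(Lagrange.basis (range (N + 1)) (fun i => ((x i : ℝ) : ℂ)) j).eval z‖ ≤
        ((N + 1) / δ) ^ N * ((j.factorial : ℝ) * ((N - j).factorial : ℝ))⁻¹ := by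
    intro j hj
    have hj' : j ≤ N := by
      have := mem_range.1 hj
      omega
    rw [Lagrange.basis, eval_prod, norm_prod]
    have hcard : ((range (N + 1)).erase j).card = N := by
      rw [card_erase_of_mem hj, card_range]
      rfl
    have h1 : ∏ i ∈ (range (N + 1)).erase j,
        ‖(Lagrange.basisDivisor ((x j : ℝ) : ℂ) ((x i : ℝ) : ℂ)).eval z‖ ≤
        ∏ i ∈ (range (N + 1)).erase j, ((N + 1) / δ * (|(i : ℝ) - j|)⁻¹) := by
      refine prod_le_prod (fun _ _ => norm_nonneg _) fun i hi => ?_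
      rw [mem_erase, mem_range] at hi
      have hi' : i ≤ N := by omega
      have hne := hi.1
      have hpos : 0 < |(i : ℝ) - j| := abs_pos.2 (sub_ne_zero.2 (by exact_mod_cast hne))
      have hg := hsep i j hi' hj' hne
      have hd : 0 < |x j - x i| := lt_of_lt_of_le (by positivity) hg
      have e1 : (Lagrange.basisDivisor ((x j : ℝ) : ℂ) ((x i : ℝ) : ℂ)).eval z =
          (((x j : ℝ) : ℂ) - ((x i : ℝ) : ℂ))⁻¹ * (z - ((x i : ℝ) : ℂ)) := by
        simp [Lagrange.basisDivisor]
      rw [e1, norm_mul, norm_inv, ← Complex.ofReal_sub, Complex.norm_real, Real.norm_eq_abs]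
      have h2 : ‖z - ((x i : ℝ) : ℂ)‖ ≤ (N + 1) * h := by
        refine (norm_sub_le _ _).trans ?_
        rw [Complex.norm_real, Real.norm_eq_abs, ← hR]
        linarith [hxR i hi']
      have h3 : |x j - x i|⁻¹ ≤ (δ * h)⁻¹ * |(i : ℝ) - j|⁻¹ := by
        rw [← mul_inv]
        exact inv_anti₀ (by positivity) hg
      calc |x j - x i|⁻¹ * ‖z - ((x i : ℝ) : ℂ)‖
          ≤ ((δ * h)⁻¹ * |(i : ℝ) - j|⁻¹) * ((N + 1) * h) :=
            mul_le_mul h3 h2 (norm_nonneg _) (by positivity)
        _ = (N + 1) / δ * |(i : ℝ) - j|⁻¹ := by field_simp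
    refine h1.trans (le_of_eq ?_)
    rw [prod_mul_distrib, prod_const, hcard, prod_inv_distrib, prod_dist hj']
  refine (sum_le_sum hone).trans ?_
  rw [← mul_sum, sum_inv_fact]
  have h1 : ((N + 1 : ℕ) : ℝ) ^ (N + 1) / (N + 1).factorial ≤ Real.exp ((N + 1 : ℕ) : ℝ) :=
    Real.pow_div_factorial_le_exp _ (Nat.cast_nonneg _) _
  have h2 : ((N + 1 : ℕ) : ℝ) ^ (N + 1) / (N + 1).factorial = ((N : ℝ) + 1) ^ N / N.factorial := by
    rw [Nat.factorial_succ, pow_succ]
    push_cast
    have : (N.factorial : ℝ) ≠ 0 := by exact_mod_cast Nat.factorial_ne_zero N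
    field_simp
  have h3 : Real.exp ((N + 1 : ℕ) : ℝ) ≤ 3 ^ (N + 1) := by
    have : Real.exp ((N + 1 : ℕ) : ℝ) = Real.exp 1 ^ (N + 1) := by
      rw [← Real.exp_nat_mul, mul_one]
    rw [this]
    exact pow_le_pow_left₀ (Real.exp_pos _).le (by linarith [Real.exp_one_lt_d9]) _
  have h4 : (2 / δ) ^ N ≤ (2 / δ) ^ (N + 1) := by
    apply pow_le_pow_right₀ _ (Nat.le_succ N)
    rw [le_div_iff₀ hδ]
    linarith
  calc ((N + 1 : ℝ) / δ) ^ N * (2 ^ N / N.factorial)
      = (2 / δ) ^ N * (((N : ℝ) + 1) ^ N / N.factorial) := by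
        rw [div_pow, div_pow]
        ring
    _ ≤ (2 / δ) ^ (N + 1) * 3 ^ (N + 1) := by
        rw [← h2]
        exact mul_le_mul h4 (h1.trans h3) (by positivity) (by positivity)
    _ = (6 / δ) ^ (N + 1) := by
        rw [← mul_pow]
        congr 1
        ring

lemma int_abs_sin : ∫ φ in (0:ℝ)..2 * Real.pi, |Real.sin φ| = 4 := by
  have hpi := Real.pi_pos
  have h1 : ∫ φ in (0:ℝ)..Real.pi, |Real.sin φ| = 2 := by
    have e : ∫ φ in (0:ℝ)..Real.pi, Real.sin φ = 2 := by
      rw [integral_sin, Real.cos_zero, Real.cos_pi]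
      norm_num
    rw [← e]
    apply intervalIntegral.integral_congr
    intro φ hφ
    rw [Set.uIcc_of_le hpi.le] at hφ
    exact abs_of_nonneg (Real.sin_nonneg_of_nonneg_of_le_pi hφ.1 hφ.2)
  have h2 : ∫ φ in Real.pi..2 * Real.pi, |Real.sin φ| = 2 := by
    have h3 := intervalIntegral.integral_comp_add_right (f := fun φ => |Real.sin φ|)
      (a := 0) (b := Real.pi) Real.pi
    rw [zero_add, show Real.pi + Real.pi = 2 * Real.pi by ring] at h3
    rw [← h3, ← h1]
    apply intervalIntegral.integral_congr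
    intro φ _
    simp [Real.sin_add_pi]
  have hc : Continuous fun φ : ℝ => |Real.sin φ| := by fun_prop
  rw [← intervalIntegral.integral_add_adjacent_intervals (hc.intervalIntegrable 0 Real.pi)
    (hc.intervalIntegrable Real.pi (2 * Real.pi)), h1, h2]
  norm_num

/-- Jensen's inequality, with a bound on the circle that depends on the imaginary part -/
theorem jensen {g : ℂ → ℂ} (hg : Differentiable ℂ g) {R : ℝ} (hR : 0 < R) (Z : Finset ℂ)
    (hZ : ∀ c ∈ Z, g c = 0) {A B : ℝ} (hA : 0 ≤ A) (hB : 0 ≤ B)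
    (hgb : ∀ z : ℂ, ‖z‖ = R → ‖g z‖ ≤ Real.exp (A + B * |z.im|)) :
    ‖g 0‖ * R ^ Z.card ≤ (∏ c ∈ Z, ‖c‖) * Real.exp (A + 2 * B * R / Real.pi) := by
  have hpi := Real.pi_pos
  obtain ⟨q, hq, hgq⟩ := Pool.Agent.H297R2.exists_factor 1 Z g hg (fun c hc =>
    (natCast_le_analyticOrderAt_iff_iteratedDeriv_eq_zero (hg.analyticAt c)).2
      (fun i hi => by
        have : i = 0 := by omega
        subst this
        rw [iteratedDeriv_zero]
        exact hZ c hc))
  set G : ℂ → ℂ := fun z => (∏ c ∈ Z, ((R : ℂ) ^ 2 - conj c * z) / R) * q z with hG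
  have hGd : Differentiable ℂ G := by
    apply Differentiable.mul _ hq
    fun_prop
  have hnorm : ∀ z : ℂ, ‖z‖ = R → ‖G z‖ = ‖g z‖ := by
    intro z hz
    rw [hgq z, hG]
    simp only [pow_one]
    rw [norm_mul, norm_mul, norm_prod, norm_prod]
    congr 1
    refine prod_congr rfl fun c _ => ?_
    have e1 : (R : ℂ) ^ 2 = z * conj z := by
      rw [Complex.mul_conj, Complex.normSq_eq_norm_sq, hz]
      push_cast
      ring
    have e2 : (R : ℂ) ^ 2 - conj c * z = z * conj (z - c) := by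
      rw [e1, map_sub]
      ring
    rw [e2, norm_div, norm_mul, RCLike.norm_conj, Complex.norm_real, Real.norm_eq_abs,
      abs_of_pos hR, hz]
    field_simp
  have hG0 : ‖g 0‖ * R ^ Z.card = (∏ c ∈ Z, ‖c‖) * ‖G 0‖ := by
    rw [hgq 0, hG]
    simp only [pow_one, mul_zero, sub_zero, zero_sub]
    rw [norm_mul, norm_mul, norm_prod, norm_prod]
    simp only [norm_neg]
    have e1 : ∏ c ∈ Z, ‖(R : ℂ) ^ 2 / R‖ = R ^ Z.card := by
      rw [prod_const]
      congr 1
      rw [norm_div, norm_pow, Complex.norm_real, Real.norm_eq_abs, abs_of_pos hR]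
      field_simp
    rw [e1]
    ring
  have hsub := Pool.Agent.H983R4.LH.posLog_submean (c := 0) hR
    (f := G) (fun z _ => hGd.analyticAt z)
  rw [Real.circleAverage_def, smul_eq_mul] at hsub
  have hc : Continuous fun φ : ℝ => Real.posLog ‖G (circleMap 0 R φ)‖ :=
    Real.continuous_posLog.comp (continuous_norm.comp (hGd.continuous.comp (continuous_circleMap 0 R)))
  have hle : ∫ φ in (0:ℝ)..2 * Real.pi, Real.posLog ‖G (circleMap 0 R φ)‖ ≤
      ∫ φ in (0:ℝ)..2 * Real.pi, (A + B * R * |Real.sin φ|) := by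
    refine intervalIntegral.integral_mono_on (by positivity) (hc.intervalIntegrable _ _)
      ((by fun_prop : Continuous fun φ : ℝ => A + B * R * |Real.sin φ|).intervalIntegrable _ _) ?_
    intro φ _
    have hz : ‖circleMap 0 R φ‖ = R := by
      rw [norm_circleMap_zero, abs_of_pos hR]
    have him : (circleMap 0 R φ).im = R * Real.sin φ := by
      rw [circleMap, zero_add, Complex.im_ofReal_mul, Complex.exp_ofReal_mul_I_im]
    rw [hnorm _ hz]
    have h1 := hgb _ hz
    rw [him, abs_mul, abs_of_pos hR, ← mul_assoc] at h1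
    have h2 := Real.posLog_le_posLog (norm_nonneg _) h1
    have h3 : Real.posLog (Real.exp (A + B * R * |Real.sin φ|)) = A + B * R * |Real.sin φ| := by
      rw [Real.posLog_eq_log, Real.log_exp]
      rw [abs_of_pos (Real.exp_pos _)]
      exact Real.one_le_exp (by positivity)
    rwa [h3] at h2
  have hint : ∫ φ in (0:ℝ)..2 * Real.pi, (A + B * R * |Real.sin φ|) =
      2 * Real.pi * A + 4 * (B * R) := by
    rw [intervalIntegral.integral_add intervalIntegrable_const
      ((by fun_prop : Continuous fun φ : ℝ => B * R * |Real.sin φ|).intervalIntegrable _ _),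
      intervalIntegral.integral_const, intervalIntegral.integral_const_mul, int_abs_sin, smul_eq_mul]
    ring
  have hfin : Real.posLog ‖G 0‖ ≤ A + 2 * B * R / Real.pi := by
    refine hsub.trans ?_
    calc (2 * Real.pi)⁻¹ * ∫ φ in (0:ℝ)..2 * Real.pi, Real.posLog ‖G (circleMap 0 R φ)‖
        ≤ (2 * Real.pi)⁻¹ * (2 * Real.pi * A + 4 * (B * R)) := by
          rw [← hint]
          exact mul_le_mul_of_nonneg_left hle (by positivity)
      _ = A + 2 * B * R / Real.pi := by
          field_simp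
          ring
  have hG0' : ‖G 0‖ ≤ Real.exp (A + 2 * B * R / Real.pi) := by
    rcases eq_or_lt_of_le (norm_nonneg (G 0)) with h0 | h0
    · rw [← h0]; positivity
    · rw [← Real.log_le_iff_le_exp h0]
      exact (le_max_right _ _).trans hfin
  rw [hG0]
  exact mul_le_mul_of_nonneg_left hG0' (prod_nonneg fun _ _ => norm_nonneg _)

end Pool.Agent.Q32.Smp
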