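import Pool.Agent.Q32.Smp.Disc2

/-!
# The bound on discs for the Riemann zeta function
-/

set_option autoImplicit false
open MeasureTheory Filter Topology Set Real

namespace Pool.Agent.Q32.Smp

open Pool.Agent.H983R4.LH

/-- the crude bound at height `T` -/
noncomputable def MZ (T : ℝ) : ℝ := Real.log 3 + 2 * Real.log 2 + 2 * Real.log (T + 2)

lemma MZ_nonneg {T : ℝ} (hT : 0 ≤ T) : 0 ≤ MZ T := by
  have h1 : 0 ≤ Real.log 3 := Real.log_nonneg (by norm_num)
  have h2 : 0 ≤ Real.log 2 := Real.log_nonneg (by norm_num)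
  have h3 : 0 ≤ Real.log (T + 2) := Real.log_nonneg (by linarith)
  unfold MZ
  positivity

lemma MZ_le {T : ℝ} (hT : 4 ≤ T) : MZ T ≤ 2 * Real.log T + 6 := by
  have h1 : Real.log 3 ≤ 2 := by
    have := Real.log_le_sub_one_of_pos (show (0:ℝ) < 3 by norm_num)
    linarith
  have h2 : Real.log 2 ≤ 1 := by
    have := Real.log_two_lt_d9; linarith
  have h3 : Real.log (T + 2) ≤ Real.log T + Real.log 2 := by
    rw [← Real.log_mul (by linarith) (by norm_num)]
    exact Real.log_le_log (by linarith) (by linarith)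
  unfold MZ
  linarith

lemma pwZ {T k a t W : ℝ} (hT : 0 ≤ T) (hk0 : 0 ≤ k) (hW : 1 ≤ W)
    (hk : ∀ x : ℝ, |x - T| ≤ W → log⁺ ‖riemannZeta (1 / 2 + (x : ℂ) * Complex.I)‖ ≤ k)
    (ha : 0 < a) (ha1 : a ≤ 1 / 2) (ht : |t - T| ≤ 1 / 2) {θ : ℝ} (h0 : 0 < θ) (h1 : θ < 2 * π) :
    log⁺ ‖G (1 / 2 + ((t + a * ct θ : ℝ) : ℂ) * Complex.I)‖ ≤
      k + (Sm (a / (2 * W - 1))).indicator (fun _ : ℝ => MZ T) θ + 2 * ps θ := by
  have hM := MZ_nonneg hT
  have hp := ps_nonneg θ
  have hW0 : 0 < 2 * W - 1 := by linarith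
  have hi : 0 ≤ (Sm (a / (2 * W - 1))).indicator (fun _ : ℝ => MZ T) θ :=
    indicator_nonneg (fun _ _ => hM) θ
  set x : ℝ := t + a * ct θ with hx
  by_cases hxT : |x - T| ≤ W
  · have h2 := hk x hxT
    have h3 : ‖G (1 / 2 + (x : ℂ) * Complex.I)‖ ≤ ‖riemannZeta (1 / 2 + (x : ℂ) * Complex.I)‖ := by
      apply G_le_zeta
      · simp
      · intro h
        have := congrArg Complex.re h
        simp at this
    have h4 := posLog_le_posLog (norm_nonneg _) h3
    linarith
  · push Not at hxT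
    have h3 : |x - T| ≤ |t - T| + a * |ct θ| := by
      have : x - T = (t - T) + a * ct θ := by rw [hx]; ring
      rw [this]
      refine (abs_add_le _ _).trans ?_
      rw [abs_mul, abs_of_pos ha]
    have h4 : 1 / (2 * (a / (2 * W - 1))) < |ct θ| := by
      rw [div_lt_iff₀ (by positivity)]
      have e : |ct θ| * (2 * (a / (2 * W - 1))) = 2 * (a * |ct θ|) / (2 * W - 1) := by ring
      rw [e, lt_div_iff₀ hW0]
      linarith
    rw [indicator_of_mem (mem_Sm (by positivity) h0 h1 h4)]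
    have hg := posLog_G_le (s := 1 / 2 + (x : ℂ) * Complex.I) (by simp)
    have hc0 := abs_nonneg (ct θ)
    have h5 : ‖(1 / 2 + (x : ℂ) * Complex.I : ℂ)‖ + 1 ≤ (T + 2) * (2 * (1 + |ct θ|)) := by
      have e1 : ‖(1 / 2 + (x : ℂ) * Complex.I : ℂ)‖ ≤ 1 / 2 + |x| := by
        refine (norm_add_le _ _).trans (add_le_add (by simp) ?_)
        rw [norm_mul, Complex.norm_I, mul_one, Complex.norm_real, Real.norm_eq_abs]
      have e2 : |x| ≤ T + |x - T| := by
        have : x = T + (x - T) := by ring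
        calc |x| = |T + (x - T)| := by rw [← this]
          _ ≤ |T| + |x - T| := abs_add_le _ _
          _ = T + |x - T| := by rw [abs_of_nonneg hT]
      have e3 : a * |ct θ| ≤ 1 / 2 * |ct θ| := mul_le_mul_of_nonneg_right ha1 hc0
      have e4 : 0 ≤ T * |ct θ| := by positivity
      linarith
    have h7 : Real.log (‖(1 / 2 + (x : ℂ) * Complex.I : ℂ)‖ + 1) ≤
        Real.log (T + 2) + (Real.log 2 + ps θ) := by
      have h8 := Real.log_le_log (by positivity) h5
      rwa [Real.log_mul (by positivity) (by positivity),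
        Real.log_mul (by positivity) (by positivity)] at h8
    unfold MZ at *
    linarith

lemma innerZ {T k a t W : ℝ} (hT : 0 ≤ T) (hk0 : 0 ≤ k) (hW : 1 ≤ W)
    (hk : ∀ x : ℝ, |x - T| ≤ W → log⁺ ‖riemannZeta (1 / 2 + (x : ℂ) * Complex.I)‖ ≤ k)
    (ha : 0 < a) (ha1 : a ≤ 1 / 2) (ht : |t - T| ≤ 1 / 2) :
    log⁺ ‖G (1 / 2 + a + t * Complex.I)‖ ≤
      k + 2 * (a / (2 * W - 1)) * MZ T + 2 * C0 / (2 * π) := by
  have hpi := Real.pi_pos
  have hM := MZ_nonneg hT
  have hW0 : 0 < 2 * W - 1 := by linarith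
  set a' : ℝ := a / (2 * W - 1) with ha'
  have ha'0 : 0 < a' := by positivity
  refine (poisson ha t).trans ?_
  rw [← div_eq_inv_mul, div_le_iff₀ (by positivity)]
  rw [intervalIntegral.integral_of_le (by positivity)]
  have hg1 : Integrable (fun _ : ℝ => k) (volume.restrict (Set.Ioc 0 (2 * π))) :=
    integrable_const _
  have hg2 : Integrable ((Sm a').indicator (fun _ : ℝ => MZ T))
      (volume.restrict (Set.Ioc 0 (2 * π))) :=
    (integrable_const _).indicator (Sm_meas a')
  have hg3 : Integrable (fun θ => 2 * ps θ) (volume.restrict (Set.Ioc 0 (2 * π))) :=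
    ps_integrable.const_mul 2
  have hle : ∫ θ in Set.Ioc 0 (2 * π), log⁺ ‖G (1 / 2 + ((t + a * ct θ : ℝ) : ℂ) * Complex.I)‖ ≤
      ∫ θ in Set.Ioc 0 (2 * π), (k + (Sm a').indicator (fun _ : ℝ => MZ T) θ + 2 * ps θ) := by
    refine integral_mono_of_nonneg (Eventually.of_forall fun θ => posLog_nonneg)
      ((hg1.add hg2).add hg3) ?_
    filter_upwards [ae_mem] with θ hθ
    exact pwZ hT hk0 hW hk ha ha1 ht hθ.1 hθ.2
  refine hle.trans ?_
  have e1 : ∫ θ in Set.Ioc 0 (2 * π), (k + (Sm a').indicator (fun _ : ℝ => MZ T) θ + 2 * ps θ) =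
      2 * π * k + (∫ θ in Set.Ioc 0 (2 * π), (Sm a').indicator (fun _ : ℝ => MZ T) θ) +
        2 * C0 := by
    have e4 := integral_add (f := fun θ => k + (Sm a').indicator (fun _ : ℝ => MZ T) θ)
      (g := fun θ => 2 * ps θ) (hg1.add hg2) hg3
    have e5 := integral_add (f := fun _ : ℝ => k)
      (g := fun θ => (Sm a').indicator (fun _ : ℝ => MZ T) θ) hg1 hg2
    have e6 : (volume.restrict (Set.Ioc 0 (2 * π))).real Set.univ = 2 * π := by
      simp [Measure.real, Real.volume_Ioc, hpi.le]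
    have e7 : ∫ θ in Set.Ioc 0 (2 * π), 2 * ps θ = 2 * C0 := by
      unfold C0
      exact integral_const_mul 2 ps
    have e8 : ∫ _ in Set.Ioc 0 (2 * π), k = 2 * π * k := by
      rw [integral_const, e6, smul_eq_mul]
    rw [e4, e5, e7, e8]
  have e2 : ∫ θ in Set.Ioc 0 (2 * π), (Sm a').indicator (fun _ : ℝ => MZ T) θ ≤
      4 * π * a' * MZ T := by
    rw [integral_indicator (Sm_meas a'), integral_const, smul_eq_mul]
    refine mul_le_mul_of_nonneg_right ?_ hM
    rw [Measure.real, Measure.restrict_apply_univ]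
    exact ENNReal.toReal_le_of_le_ofReal (by positivity)
      ((Measure.restrict_apply_le _ _).trans (Sm_vol ha'0))
  rw [e1]
  have e3 : (k + 2 * a' * MZ T + 2 * C0 / (2 * π)) * (2 * π) =
      2 * π * k + 4 * π * a' * MZ T + 2 * C0 := by
    field_simp
    ring
  rw [e3]
  linarith

/-- the bound on discs for `(s - 1) ζ(s) / T` -/
theorem discZ : ∃ D : ℝ, 0 ≤ D ∧ ∀ T k R W : ℝ, 4 ≤ T → 0 ≤ k → 1 ≤ W →
    (∀ x : ℝ, |x - T| ≤ W → log⁺ ‖riemannZeta (1 / 2 + (x : ℂ) * Complex.I)‖ ≤ k) →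
    0 ≤ R → R ≤ 1 / 2 → ∀ z : ℂ, ‖z‖ ≤ R →
    ‖(riemannZeta₁ (1 / 2 + T * Complex.I + z * Complex.I) / T) *
      Complex.exp ((Real.log T / 2 : ℝ) * z * Complex.I)‖ ≤
      Real.exp (k + 4 * R * Real.log T / (2 * W - 1) + D + Real.log T / 2 * |z.im|) := by
  obtain ⟨K, hK, hfe⟩ := zeta_left
  have hpi := Real.pi_pos
  have hC0 := C0_nonneg
  have hl2 : 0 < Real.log 2 := Real.log_pos (by norm_num)
  have hl3 : 0 < Real.log 3 := Real.log_pos (by norm_num)
  refine ⟨Real.log 2 + Real.log 3 + 6 + 2 * C0 / (2 * π) + K + 1, by positivity, ?_⟩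
  intro T k R W hT hk0 hW hk hR hR1 z hz
  have hT0 : 0 < T := by linarith
  set ℓ : ℝ := Real.log T with hℓ
  have hℓ0 : 0 ≤ ℓ := Real.log_nonneg (by linarith)
  have hW0 : 0 < 2 * W - 1 := by linarith
  have hre : |z.re| ≤ R := (Complex.abs_re_le_norm z).trans hz
  have him : |z.im| ≤ R := (Complex.abs_im_le_norm z).trans hz
  set t : ℝ := T + z.re with ht
  have htT : |t - T| ≤ R := by rw [ht, add_sub_cancel_left]; exact hre
  have htT' := abs_le.1 htT
  have hq0 : 0 ≤ 4 * R * ℓ / (2 * W - 1) := by positivity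
  have hC0' : 0 ≤ 2 * C0 / (2 * π) := by positivity
  have hs : (1 / 2 + T * Complex.I + z * Complex.I : ℂ) =
      1 / 2 - z.im + t * Complex.I := by
    apply Complex.ext
    · simp
      ring
    · simp [ht]
  have hright : ∀ a : ℝ, 0 < a → a ≤ R →
      log⁺ ‖riemannZeta (1 / 2 + a + t * Complex.I)‖ ≤
        k + 4 * R * ℓ / (2 * W - 1) + Real.log 3 + 6 + 2 * C0 / (2 * π) := by
    intro a ha haR
    have h1 := innerZ hT0.le hk0 hW hk ha (by linarith) (t := t) (by linarith)
    have h2 : 2 * (a / (2 * W - 1)) * MZ T ≤ 4 * R * ℓ / (2 * W - 1) + 6 := by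
      have h3 : 2 * (a / (2 * W - 1)) * MZ T ≤ 2 * (R / (2 * W - 1)) * (2 * ℓ + 6) := by
        refine mul_le_mul ?_ (MZ_le hT) (MZ_nonneg hT0.le) (by positivity)
        have := div_le_div_of_nonneg_right haR hW0.le
        linarith
      have h5 : R / (2 * W - 1) ≤ 1 / 2 := by
        rw [div_le_iff₀ hW0]
        linarith
      have h6 : 2 * (R / (2 * W - 1)) * (2 * ℓ + 6) =
          4 * R * ℓ / (2 * W - 1) + 12 * (R / (2 * W - 1)) := by ring
      linarith
    have h7 := posLog_zeta_le (s := 1 / 2 + a + t * Complex.I) (by simp; linarith) (by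
      have h8 := Complex.abs_im_le_norm ((1 / 2 + a + t * Complex.I : ℂ) - 1)
      have h9 : ((1 / 2 + a + t * Complex.I : ℂ) - 1).im = t := by simp
      rw [h9] at h8
      have := le_abs_self t
      linarith)
    linarith
  have hF : ‖riemannZeta₁ (1 / 2 - z.im + t * Complex.I) / T‖ ≤
      2 * ‖riemannZeta (1 / 2 - z.im + t * Complex.I)‖ := by
    have hne : (1 / 2 - z.im + t * Complex.I : ℂ) ≠ 1 := by
      intro h
      have := congrArg Complex.im h
      simp at this
      linarith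
    rw [Pool.Agent.H437R2.z1_of_ne hne, norm_div, norm_mul, Complex.norm_real, Real.norm_eq_abs,
      abs_of_pos hT0, div_le_iff₀ hT0]
    have h1 : ‖(1 / 2 - z.im + t * Complex.I : ℂ) - 1‖ ≤ 2 * T := by
      have e : (1 / 2 - z.im + t * Complex.I : ℂ) - 1 = ((-(1 / 2) - z.im : ℝ) : ℂ) + t * Complex.I := by
        push_cast; ring
      rw [e]
      refine (norm_add_le _ _).trans ?_
      rw [norm_mul, Complex.norm_I, mul_one, Complex.norm_real, Complex.norm_real, Real.norm_eq_abs,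
        Real.norm_eq_abs]
      have h2 : |-(1 / 2) - z.im| ≤ 1 := by
        have := abs_le.1 him
        rw [abs_le]
        constructor <;> linarith
      have h3 : |t| ≤ T + 1 / 2 := by
        rw [abs_le]
        constructor <;> linarith
      linarith
    have h2 := mul_le_mul_of_nonneg_right h1 (norm_nonneg (riemannZeta (1 / 2 - z.im + t * Complex.I)))
    linarith
  rw [norm_mul, Complex.norm_exp]
  have e1 : (((ℓ / 2 : ℝ) : ℂ) * z * Complex.I).re = -(ℓ / 2 * z.im) := by
    rw [mul_assoc, Complex.re_ofReal_mul]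
    simp
  rw [e1, hs]
  have hF2 : ‖riemannZeta₁ (1 / 2 - z.im + t * Complex.I) / T‖ ≤
      Real.exp (Real.log 2 + log⁺ ‖riemannZeta (1 / 2 - z.im + t * Complex.I)‖) := by
    refine hF.trans ?_
    rw [Real.exp_add, Real.exp_log (by norm_num)]
    exact mul_le_mul_of_nonneg_left (norm_le_exp_posLog (norm_nonneg _)) (by norm_num)
  refine (mul_le_mul_of_nonneg_right hF2 (Real.exp_pos _).le).trans ?_
  rw [← Real.exp_add]
  apply Real.exp_le_exp.2
  rcases lt_trichotomy z.im 0 with h | h | h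
  · set a : ℝ := -z.im with ha
    have ha0 : 0 < a := by rw [ha]; linarith
    have haR : a ≤ R := by
      rw [abs_of_neg h] at him
      exact him
    have e2 : (1 / 2 - (z.im : ℂ) + t * Complex.I) = 1 / 2 + a + t * Complex.I := by
      rw [ha]; push_cast; ring
    have h2 := hright a ha0 haR
    rw [e2, abs_of_neg h]
    linarith
  · have e2 : (1 / 2 - (z.im : ℂ) + t * Complex.I) = 1 / 2 + t * Complex.I := by
      rw [h]; simp
    have h1 := hk t (by linarith)
    rw [e2, h]
    simp only [mul_zero, neg_zero, add_zero, abs_zero]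
    linarith
  · set σ : ℝ := z.im with hσ
    have hσR : σ ≤ R := by
      rw [abs_of_pos h] at him
      exact him
    have h1 := hfe σ t h.le (by linarith) (by linarith)
    have h2 := hright σ h hσR
    have h3 : Real.log t ≤ ℓ + 1 := by
      have h4 : Real.log t ≤ Real.log (T * 2) := Real.log_le_log (by linarith) (by linarith)
      rw [Real.log_mul hT0.ne' (by norm_num)] at h4
      have := Real.log_two_lt_d9
      linarith
    have h4 : σ * Real.log t ≤ σ * ℓ + 1 := by
      have := mul_le_mul_of_nonneg_left h3 h.le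
      linarith
    rw [abs_of_pos h]
    linarith

end Pool.Agent.Q32.Smp
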