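import Pool.Agent.Q32.Smp.ZMain

/-!
# The local sampling inequality for the Riemann zeta function
-/

set_option autoImplicit false
open MeasureTheory Filter Topology Set Real

namespace Pool.Agent.Q32.Smp

open Pool.Agent.H983R4.LH

/-- the improvement at one height -/
theorem zheight {θ : ℝ} (hθ : 0 < θ) (hθ2 : θ < 2 * π) : ∃ a β W C : ℝ, 0 < a ∧ 0 < β ∧ β ≤ a ∧
    1 ≤ W ∧ 1 ≤ C ∧ ∀ R : ℝ, 0 < R → R ≤ 1 / 2 → ∃ T₁ : ℝ, ∀ T : ℝ, T₁ ≤ T → ∀ κ μ c : ℝ,
      0 ≤ κ → 0 ≤ c → a * R ≤ μ - κ → ∀ V : Set ℝ,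
      (∀ t : ℝ, |t - T| ≤ 1 → ∃ v ∈ V, t ≤ v ∧ v ≤ t + θ / Real.log T) →
      (∀ y : ℝ, |y - T| ≤ W →
        ‖riemannZeta (1 / 2 + (y : ℂ) * Complex.I)‖ ≤ Real.exp (μ * Real.log T + c)) →
      (∀ v ∈ V, |v - T| ≤ 1 →
        ‖riemannZeta (1 / 2 + (v : ℂ) * Complex.I)‖ ≤ Real.exp (κ * Real.log T + c)) →
      ‖riemannZeta (1 / 2 + T * Complex.I)‖ ≤ C * Real.exp ((μ - β * R) * Real.log T + c) := by
  have hpi := Real.pi_pos
  obtain ⟨D, hD0, hdz⟩ := discZ
  set θ₁ : ℝ := (θ + 2 * π) / 2 with hθ₁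
  have hθ₁0 : 0 < θ₁ := by rw [hθ₁]; positivity
  have hθ₁1 : θ < θ₁ := by rw [hθ₁]; linarith
  have hθ₁2 : θ₁ < 2 * π := by rw [hθ₁]; linarith
  set δ : ℝ := (θ₁ - θ) / (2 * θ₁) with hδdef
  have hδ : 0 < δ := div_pos (by linarith) (by linarith)
  have hδ1 : δ ≤ 1 := by
    rw [hδdef, div_le_one (by linarith)]
    linarith
  have hδθ : (1 - δ) * θ₁ = (θ₁ + θ) / 2 := by
    rw [hδdef]; field_simp; ring
  set γ : ℝ := 2 / θ₁ - 1 / π with hγ
  have hγ0 : 0 < γ := by
    rw [hγ, sub_pos, div_lt_div_iff₀ hpi hθ₁0]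
    linarith
  set W : ℝ := 1 + 8 / γ with hW
  have hW1 : 1 ≤ W := by
    have : 0 < 8 / γ := by positivity
    linarith
  have hΛ : 0 < Real.log (6 / δ) := Real.log_pos (by
    rw [lt_div_iff₀ hδ]; linarith)
  set a : ℝ := 2 * Real.log (6 / δ) / θ₁ + γ with ha
  have ha0 : 0 < a := by positivity
  set M : ℝ := 1 + 64 / (γ * θ₁) ^ 2 with hM
  have hM1 : 1 ≤ M := by
    have : 0 ≤ 64 / (γ * θ₁) ^ 2 := by positivity
    linarith
  have hexp1 : 1 ≤ Real.exp (5 + D) := Real.one_le_exp (by linarith)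
  refine ⟨a, γ / 2, W, M * Real.exp (5 + D), ha0, by positivity, ?_, hW1, ?_, ?_⟩
  · have : 0 < 2 * Real.log (6 / δ) / θ₁ := by positivity
    linarith
  · nlinarith
  intro R hR hR1
  set ℓ₀ : ℝ := max 1 (θ₁ / R) with hℓ₀
  have hℓ1 : 1 ≤ ℓ₀ := le_max_left _ _
  have hℓ3 : θ₁ / R ≤ ℓ₀ := le_max_right _ _
  refine ⟨max 4 (Real.exp ℓ₀), ?_⟩
  intro T hT κ μ c₀ hκ hc₀ hR3 V hV hu hs
  have hT4 : 4 ≤ T := (le_max_left _ _).trans hT
  have hTe : Real.exp ℓ₀ ≤ T := (le_max_right _ _).trans hT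
  have hT0 : 0 < T := by linarith
  have hμ0 : 0 ≤ μ := by
    have : 0 < a * R := by positivity
    linarith
  set ℓ : ℝ := Real.log T with hℓdef
  have hℓge : ℓ₀ ≤ ℓ := by
    rw [hℓdef, Real.le_log_iff_exp_le hT0]
    exact hTe
  have hℓpos : 1 ≤ ℓ := hℓ1.trans hℓge
  have hRℓ : 1 ≤ R * ℓ / θ₁ := by
    have h1 : θ₁ / R ≤ ℓ := hℓ3.trans hℓge
    rw [div_le_iff₀ hR] at h1
    rw [le_div_iff₀ hθ₁0]
    linarith
  set n : ℕ := ⌊R * ℓ / θ₁⌋₊ with hn
  have hn1 : R * ℓ / θ₁ - 1 ≤ n := by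
    have := Nat.lt_floor_add_one (R * ℓ / θ₁)
    rw [← hn] at this
    linarith
  have hn2 : (n : ℝ) ≤ R * ℓ / θ₁ := Nat.floor_le (by positivity)
  have hnpos : 1 ≤ n := Nat.one_le_floor_iff _ |>.2 hRℓ
  have hnr : (1 : ℝ) ≤ n := by exact_mod_cast hnpos
  set h : ℝ := R / n with hh
  have hhR : R = n * h := by rw [hh]; field_simp
  have hh0 : 0 < h := by rw [hh]; positivity
  have hhθ : θ₁ ≤ h * ℓ := by
    have h1 : (n : ℝ) * θ₁ ≤ R * ℓ := by
      rwa [le_div_iff₀ hθ₁0] at hn2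
    rw [hh, div_mul_eq_mul_div, le_div_iff₀ (by linarith)]
    linarith
  have hnode : ∀ j : ℕ, ∃ x : ℝ, j < n + n →
      (-R + j * h + δ * h / 2 ≤ x ∧ x ≤ -R + (j + 1) * h - δ * h / 2) ∧ T + x ∈ V := by
    intro j
    by_cases hj : j < n + n
    · have hjr : (j : ℝ) + 1 ≤ n + n := by exact_mod_cast hj
      have hj0 : (0 : ℝ) ≤ j := Nat.cast_nonneg j
      have hδh : 0 < δ * h := by positivity
      have hδh1 : δ * h ≤ h := mul_le_of_le_one_left hh0.le hδ1
      have hjh : 0 ≤ (j : ℝ) * h := by positivity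
      have hjh2 : ((j : ℝ) + 1) * h ≤ 2 * R := by
        rw [hhR]
        linarith [mul_le_mul_of_nonneg_right hjr hh0.le]
      set t : ℝ := T + (-R + j * h + δ * h / 2) with ht
      have htT : |t - T| ≤ 1 := by
        rw [ht, abs_le]
        constructor <;> linarith
      obtain ⟨v, hv, hv1, hv2⟩ := hV t htT
      have h6 : θ / ℓ ≤ (1 - δ) * h := by
        rw [div_le_iff₀ (by linarith)]
        have hδ' : 0 ≤ 1 - δ := by linarith
        have h8 : (1 - δ) * θ₁ ≤ (1 - δ) * (h * ℓ) := mul_le_mul_of_nonneg_left hhθ hδ'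
        have h9 : θ ≤ (1 - δ) * θ₁ := by
          rw [hδθ]
          linarith
        linarith
      refine ⟨v - T, fun _ => ⟨⟨by linarith, ?_⟩, ?_⟩⟩
      · have e : -R + ((j : ℝ) + 1) * h - δ * h / 2 =
            (-R + j * h + δ * h / 2) + (1 - δ) * h := by ring
        rw [e]
        linarith
      · rw [add_sub_cancel]
        exact hv
    · exact ⟨0, fun h => absurd h hj⟩
  choose x hx using hnode
  have hxle : ∀ j < n + n, |T + x j - T| ≤ 1 / 2 := by
    intro j hj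
    have hjr : (j : ℝ) + 1 ≤ n + n := by exact_mod_cast hj
    have hj0 : (0 : ℝ) ≤ j := Nat.cast_nonneg j
    obtain ⟨⟨h1, h2⟩, _⟩ := hx j hj
    have hδh : 0 < δ * h := by positivity
    have hjh : 0 ≤ (j : ℝ) * h := by positivity
    have hjh2 : ((j : ℝ) + 1) * h ≤ 2 * R := by
      rw [hhR]
      linarith [mul_le_mul_of_nonneg_right hjr hh0.le]
    rw [add_sub_cancel_left, abs_le]
    constructor <;> linarith
  set c : ℝ := c₀ + 1 with hc
  have hc0 : 0 ≤ c := by linarith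
  have hk : ∀ y : ℝ, |y - T| ≤ W →
      log⁺ ‖riemannZeta (1 / 2 + (y : ℂ) * Complex.I)‖ ≤ μ * ℓ + c := by
    intro y hy
    have h2 := posLog_le_posLog (norm_nonneg _) (hu y hy)
    have h3 : log⁺ (Real.exp (μ * ℓ + c₀)) = μ * ℓ + c₀ := by
      rw [posLog_eq_log, Real.log_exp]
      rw [abs_of_pos (Real.exp_pos _)]
      exact Real.one_le_exp (by positivity)
    rw [h3] at h2
    linarith
  have hW2 : 0 < 2 * W - 1 := by linarith
  have hq : 4 * R * ℓ / (2 * W - 1) ≤ γ / 4 * (R * ℓ) := by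
    rw [div_le_iff₀ hW2, hW]
    have e : γ / 4 * (R * ℓ) * (2 * (1 + 8 / γ) - 1) = γ / 4 * (R * ℓ) + 4 * R * ℓ := by
      field_simp
      ring
    rw [e]
    have : 0 ≤ γ / 4 * (R * ℓ) := by positivity
    linarith
  have hk0 : 0 ≤ μ * ℓ + c := by positivity
  have hcore := core3 (F := fun s => riemannZeta₁ s / T) (differentiable_riemannZeta₁.div_const _)
    (T := T) (ℓ := ℓ) (D := D) (q := 4 * R * ℓ / (2 * W - 1)) (by linarith) hD0
    (R := R) (κ := κ) (μ := μ) (c := c)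
    (δ := δ) (θ₁ := θ₁) (γ := γ) (h := h) hR hμ0 hc0 hδ hδ1 hθ₁0 hγ0 hγ
    hR3 (by positivity) hq (fun z hz => hdz T (μ * ℓ + c) R W hT4 hk0 hW1 hk hR.le
      hR1 z hz) hnpos hn1 hn2 hhR x (fun j hj => (hx j hj).1) (by
      intro j hj
      have h1 := z1_up hT4 (hxle j hj)
      have h3 := hs (T + x j) (hx j hj).2 ((hxle j hj).trans (by norm_num))
      refine h1.trans ?_
      have h4 : Real.exp (κ * ℓ + c) = Real.exp 1 * Real.exp (κ * ℓ + c₀) := by
        rw [← Real.exp_add, hc]; congr 1; ring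
      rw [h4]
      have h5 : (2 : ℝ) ≤ Real.exp 1 := by linarith [Real.exp_one_gt_d9]
      exact mul_le_mul h5 h3 (norm_nonneg _) (Real.exp_pos _).le)
  refine (z1_low hT4).trans (hcore.trans (le_of_eq ?_))
  rw [mul_assoc, ← Real.exp_add]
  congr 2
  rw [hc]
  ring

/-- **the local sampling inequality** -/
theorem zlocal {θ : ℝ} (hθ : 0 < θ) (hθ2 : θ < 2 * π) {ε : ℝ} (hε : 0 < ε) :
    ∃ W T₀ : ℝ, 0 < W ∧ ∀ T : ℝ, T₀ ≤ T → ∀ V : Set ℝ,
      (∀ t : ℝ, |t - T| ≤ W → ∃ v ∈ V, t ≤ v ∧ v ≤ t + θ / Real.log T) →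
      ∀ M : ℝ, 1 ≤ M → (∀ v ∈ V, |v - T| ≤ W → ‖riemannZeta (1 / 2 + (v : ℂ) * Complex.I)‖ ≤ M) →
      ‖riemannZeta (1 / 2 + T * Complex.I)‖ ≤ M * T ^ ε := by
  have hpi := Real.pi_pos
  -- a slightly larger `θ'`
  set θ' : ℝ := (θ + 2 * π) / 2 with hθ'
  have hθ'0 : 0 < θ' := by rw [hθ']; positivity
  have hθ'1 : θ < θ' := by rw [hθ']; linarith
  have hθ'2 : θ' < 2 * π := by rw [hθ']; linarith
  obtain ⟨a, β, W, C, ha, hβ, hβa, hW, hC, hz⟩ := zheight hθ'0 hθ'2
  set R : ℝ := min (1 / 2) (ε / (4 * a)) with hR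
  have hR0 : 0 < R := lt_min (by norm_num) (by positivity)
  have hR1 : R ≤ 1 / 2 := min_le_left _ _
  have hR2 : a * R ≤ ε / 4 := by
    have h1 : R ≤ ε / (4 * a) := min_le_right _ _
    rw [le_div_iff₀ (by positivity)] at h1
    linarith
  obtain ⟨T₁, hT₁⟩ := hz R hR0 hR1
  set b : ℝ := β * R with hb
  have hb0 : 0 < b := by positivity
  have hbε : b ≤ ε / 4 := (mul_le_mul_of_nonneg_right hβa hR0.le).trans hR2
  -- the number of steps
  obtain ⟨J, hJ⟩ := exists_nat_gt (6 / b)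
  have hJb : 6 < J * b := by rwa [div_lt_iff₀ hb0] at hJ
  set W' : ℝ := (J + 1) * W with hW'
  have hJ0 : (0 : ℝ) ≤ J := Nat.cast_nonneg J
  have hW'0 : 0 < W' := by rw [hW']; positivity
  have hC0 : 0 ≤ Real.log C := Real.log_nonneg hC
  set ℓ₁ : ℝ := max 8 (max (4 * (Real.log C + 1) / b) (max (2 * (Real.log C + 1) / ε * 4)
    (2 * θ / (θ' - θ)))) with hℓ₁
  have l1 : 8 ≤ ℓ₁ := le_max_left _ _
  have l2 : 4 * (Real.log C + 1) / b ≤ ℓ₁ := (le_max_left _ _).trans (le_max_right _ _)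
  have l3 : 2 * (Real.log C + 1) / ε * 4 ≤ ℓ₁ :=
    ((le_max_left _ _).trans (le_max_right _ _)).trans (le_max_right _ _)
  have l4 : 2 * θ / (θ' - θ) ≤ ℓ₁ :=
    ((le_max_right _ _).trans (le_max_right _ _)).trans (le_max_right _ _)
  refine ⟨W', max (Real.exp ℓ₁) (max (2 * |T₁|) (2 * W' + 8)), hW'0, ?_⟩
  intro T hT V hV M hM hs
  have t1 : Real.exp ℓ₁ ≤ T := (le_max_left _ _).trans hT
  have t2 : 2 * |T₁| ≤ T := ((le_max_left _ _).trans (le_max_right _ _)).trans hT
  have t3 : 2 * W' + 8 ≤ T := ((le_max_right _ _).trans (le_max_right _ _)).trans hT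
  have hT0 : 0 < T := by linarith
  set ℓ : ℝ := Real.log T with hℓ
  have hℓge : ℓ₁ ≤ ℓ := by
    rw [hℓ, Real.le_log_iff_exp_le hT0]
    exact t1
  have hℓ8 : 8 ≤ ℓ := l1.trans hℓge
  have hlC1 : Real.log C + 1 ≤ b * ℓ / 4 := by
    have := l2.trans hℓge
    rw [div_le_iff₀ hb0] at this
    linarith
  have hlC2 : Real.log C + 1 ≤ ε * ℓ / 8 := by
    have h1 := l3.trans hℓge
    have e : 2 * (Real.log C + 1) / ε * 4 = 8 * (Real.log C + 1) / ε := by ring
    rw [e, div_le_iff₀ hε] at h1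
    linarith
  have hθℓ : 2 * θ ≤ ℓ * (θ' - θ) := by
    have := l4.trans hℓge
    rwa [div_le_iff₀ (by linarith)] at this
  set m : ℝ := Real.log M with hm
  have hm0 : 0 ≤ m := Real.log_nonneg hM
  have hMexp : M = Real.exp m := (Real.exp_log (by linarith)).symm
  -- heights near `T`
  have hnear : ∀ x : ℝ, |x - T| ≤ W' → T₁ ≤ x ∧ 2 ≤ x ∧ ℓ - 1 ≤ Real.log x ∧ Real.log x ≤ ℓ + 1 := by
    intro x hx
    have hx' := abs_le.1 hx
    have hxT : T / 2 ≤ x := by linarith
    have hxT2 : x ≤ 2 * T := by linarith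
    have hx0 : 0 < x := by linarith
    have hl2 := Real.log_two_lt_d9
    refine ⟨?_, by linarith, ?_, ?_⟩
    · have := le_abs_self T₁
      linarith
    · have h4 : Real.log (T / 2) ≤ Real.log x := Real.log_le_log (by linarith) hxT
      rw [Real.log_div hT0.ne' (by norm_num)] at h4
      linarith
    · have h4 : Real.log x ≤ Real.log (2 * T) := Real.log_le_log hx0 hxT2
      rw [Real.log_mul (by norm_num) hT0.ne'] at h4
      linarith
  set K₀ : ℝ := m + ε * ℓ with hK₀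
  have hK₀0 : 0 ≤ K₀ := by rw [hK₀]; positivity
  -- the induction
  have hind : ∀ j : ℕ, j ≤ J → ∀ x : ℝ, |x - T| ≤ (J - j) * W →
      ‖riemannZeta (1 / 2 + x * Complex.I)‖ ≤ Real.exp (max ((3 - j * (b / 2)) * ℓ) K₀) := by
    intro j
    induction j with
    | zero =>
      intro _ x hx
      rw [Nat.cast_zero, sub_zero] at hx
      obtain ⟨_, h2, _, h4⟩ := hnear x (hx.trans (by rw [hW']; nlinarith))
      have hx0 : 0 < x := by linarith
      refine (zcrude h2).trans ?_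
      have h5 : 36 * x ^ 2 ≤ Real.exp (4 + 2 * Real.log x) := by
        have e1 : x ^ 2 = Real.exp (2 * Real.log x) := by
          rw [two_mul, Real.exp_add, Real.exp_log hx0]; ring
        have e2 : (36 : ℝ) ≤ Real.exp 4 := by
          have : Real.exp 4 = Real.exp 1 ^ 4 := by rw [← Real.exp_nat_mul]; norm_num
          rw [this]
          calc (36 : ℝ) ≤ 2.7182818283 ^ 4 := by norm_num
            _ ≤ Real.exp 1 ^ 4 := pow_le_pow_left₀ (by norm_num) Real.exp_one_gt_d9.le 4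
        rw [Real.exp_add, ← e1]
        exact mul_le_mul_of_nonneg_right e2 (by positivity)
      refine h5.trans (Real.exp_le_exp.2 ?_)
      refine le_trans ?_ (le_max_left _ _)
      rw [Nat.cast_zero, zero_mul, sub_zero]
      linarith
    | succ j ih =>
      intro hj x hx
      have hj' : j ≤ J := by omega
      have hjr : ((j + 1 : ℕ) : ℝ) ≤ J := by exact_mod_cast hj
      push_cast at hx hjr ⊢
      have hxW : |x - T| ≤ J * W - W := by
        have h1 : ((J : ℝ) - (j + 1)) * W ≤ (J - 1) * W :=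
          mul_le_mul_of_nonneg_right (by have : (0:ℝ) ≤ j := Nat.cast_nonneg j; linarith) (by linarith)
        linarith
      have hJW : 0 ≤ (J : ℝ) * W := by positivity
      obtain ⟨h1, h2, h3, h4⟩ := hnear x (hxW.trans (by rw [hW']; linarith))
      set lx : ℝ := Real.log x with hlx
      have hlx0 : 0 < lx := by linarith
      -- the bounds in units of `lx`
      set p : ℝ := max ((3 - j * (b / 2)) * ℓ) K₀ with hp
      have hp0 : K₀ ≤ p := le_max_right _ _
      set μ : ℝ := max p (m + a * R * lx) / lx with hμ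
      have hμe : μ * lx = max p (m + a * R * lx) := by rw [hμ]; field_simp
      have hbd := hT₁ x h1 (m / lx) μ 0 (by positivity) le_rfl (by
        have e : a * R = (m + a * R * lx) / lx - m / lx := by field_simp; ring
        rw [e]
        have := div_le_div_of_nonneg_right (le_max_right p (m + a * R * lx)) hlx0.le
        linarith) V (by
        intro t ht
        obtain ⟨v, hv, hv1, hv2⟩ := hV t (by
          have h5 : |t - T| ≤ |t - x| + |x - T| := by
            have : t - T = (t - x) + (x - T) := by ring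
            rw [this]
            exact abs_add_le _ _
          rw [hW']
          linarith)
        refine ⟨v, hv, hv1, hv2.trans ?_⟩
        have h6 : θ / ℓ ≤ θ' / lx := by
          rw [div_le_div_iff₀ (by linarith) hlx0]
          have h7 : θ * lx ≤ θ * (ℓ + 1) := mul_le_mul_of_nonneg_left h4 hθ.le
          linarith
        linarith) (by
        intro y hy
        have h5 : |y - T| ≤ |y - x| + |x - T| := by
          have : y - T = (y - x) + (x - T) := by ring
          rw [this]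
          exact abs_add_le _ _
        refine (ih hj' y (by linarith)).trans (Real.exp_le_exp.2 ?_)
        rw [hμe, add_zero]
        exact le_max_left _ _) (by
        intro v hv hvx
        have h5 : |v - T| ≤ |v - x| + |x - T| := by
          have : v - T = (v - x) + (x - T) := by ring
          rw [this]
          exact abs_add_le _ _
        have h6 := hs v hv (by rw [hW']; linarith)
        have e : m / lx * lx + 0 = m := by field_simp; ring
        rw [e, ← hMexp]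
        exact h6)
      have hCe : C = Real.exp (Real.log C) := (Real.exp_log (by linarith)).symm
      rw [hCe, ← Real.exp_add] at hbd
      refine hbd.trans (Real.exp_le_exp.2 ?_)
      have e : Real.log C + ((μ - β * R) * lx + 0) = Real.log C + (max p (m + a * R * lx) - b * lx) := by
        rw [← hμe]; ring
      rw [e]
      have hblx : b * (ℓ - 1) ≤ b * lx := mul_le_mul_of_nonneg_left h3 hb0.le
      have hbℓ : b * 8 ≤ b * ℓ := mul_le_mul_of_nonneg_left hℓ8 hb0.le
      rcases max_cases p (m + a * R * lx) with ⟨h5, _⟩ | ⟨h5, _⟩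
      · rw [h5]
        rcases max_cases ((3 - j * (b / 2)) * ℓ) K₀ with ⟨h6, _⟩ | ⟨h6, _⟩
        · rw [hp, h6]
          refine le_trans ?_ (le_max_left _ _)
          have e2 : (3 - ((j : ℝ) + 1) * (b / 2)) * ℓ = (3 - j * (b / 2)) * ℓ - b * ℓ / 2 := by ring
          rw [e2]
          linarith
        · rw [hp, h6]
          refine le_trans ?_ (le_max_right _ _)
          linarith
      · rw [h5]
        refine le_trans ?_ (le_max_right _ _)
        have h6 : a * R * lx ≤ ε / 4 * (ℓ + 1) := by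
          refine mul_le_mul hR2 h4 hlx0.le (by positivity)
        have h7 : ε / 4 * 1 ≤ ε / 4 * (ℓ / 8) := mul_le_mul_of_nonneg_left (by linarith) (by positivity)
        have h8 : 0 ≤ ε * ℓ := by positivity
        have h9 : 0 ≤ b * lx := by positivity
        rw [hK₀]
        linarith
  have hfin := hind J le_rfl T (by rw [sub_self, sub_self, abs_zero, zero_mul])
  refine hfin.trans ?_
  have h1 : (3 - (J : ℝ) * (b / 2)) * ℓ ≤ K₀ := by
    have h2 : (3 - (J : ℝ) * (b / 2)) * ℓ ≤ 0 :=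
      mul_nonpos_of_nonpos_of_nonneg (by linarith) (by linarith)
    linarith
  rw [max_eq_right h1, hK₀, Real.exp_add, ← hMexp, Real.rpow_def_of_pos hT0]
  refine mul_le_mul_of_nonneg_left (Real.exp_le_exp.2 ?_) (by linarith)
  change ε * ℓ ≤ ℓ * ε
  linarith

end Pool.Agent.Q32.Smp
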