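import Pool.Agent.Q32.Smp.Core3
import Pool.Agent.Q32.Smp.ZDisc

/-!
# The sampling theorem for the Riemann zeta function
-/

set_option autoImplicit false
open MeasureTheory Filter Topology Set Real

namespace Pool.Agent.Q32.Smp

open Pool.Agent.H983R4.LH

/-- `ζ(1/2 + it) ≪ t^(κ + ε)` for all `t ≥ 2` in `S` -/
def ZAdm (S : Set ℝ) (κ : ℝ) : Prop :=
  ∀ ε : ℝ, 0 < ε → ∃ B : ℝ, ∀ t : ℝ, 2 ≤ t → t ∈ S →
    ‖riemannZeta (1 / 2 + t * Complex.I)‖ ≤ B * t ^ (κ + ε)

/-- every interval `[t, t + θ / log t]` meets `V`, if `t` is large -/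
def ZFine (θ : ℝ) (V : Set ℝ) : Prop :=
  ∃ T₀ : ℝ, ∀ t : ℝ, T₀ ≤ t → ∃ v ∈ V, t ≤ v ∧ v ≤ t + θ / Real.log t

lemma zcrude {t : ℝ} (ht : 2 ≤ t) : ‖riemannZeta (1 / 2 + t * Complex.I)‖ ≤ 36 * t ^ 2 := by
  have h1 := zeta_le_G (s := 1 / 2 + t * Complex.I) (by simp) (by
    have h8 := Complex.abs_im_le_norm ((1 / 2 + t * Complex.I : ℂ) - 1)
    have h9 : ((1 / 2 + t * Complex.I : ℂ) - 1).im = t := by simp
    rw [h9] at h8
    have := le_abs_self t
    linarith)
  have h2 := G_norm_le (s := 1 / 2 + t * Complex.I) (by simp)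
  have h3 : ‖(1 / 2 + t * Complex.I : ℂ)‖ ≤ 1 / 2 + t := by
    refine (norm_add_le _ _).trans (add_le_add (by simp) ?_)
    rw [norm_mul, Complex.norm_I, mul_one, Complex.norm_real, Real.norm_eq_abs,
      abs_of_pos (by linarith)]
  have h4 : ‖(1 / 2 + t * Complex.I : ℂ)‖ + 1 ≤ 2 * t := by linarith
  have h5 : (‖(1 / 2 + t * Complex.I : ℂ)‖ + 1) ^ 2 ≤ (2 * t) ^ 2 :=
    pow_le_pow_left₀ (by positivity) h4 2
  calc ‖riemannZeta (1 / 2 + t * Complex.I)‖ ≤ 3 * ‖G (1 / 2 + t * Complex.I)‖ := h1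
    _ ≤ 3 * (3 * (‖(1 / 2 + t * Complex.I : ℂ)‖ + 1) ^ 2) := by linarith
    _ ≤ 3 * (3 * (2 * t) ^ 2) := by linarith
    _ = 36 * t ^ 2 := by ring

lemma z1_up {T t : ℝ} (hT : 4 ≤ T) (ht : |t - T| ≤ 1 / 2) :
    ‖riemannZeta₁ (1 / 2 + t * Complex.I) / T‖ ≤ 2 * ‖riemannZeta (1 / 2 + t * Complex.I)‖ := by
  have ht' := abs_le.1 ht
  have hT0 : 0 < T := by linarith
  have hne : (1 / 2 + t * Complex.I : ℂ) ≠ 1 := by
    intro h
    have := congrArg Complex.im h
    simp at this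
    linarith
  rw [Pool.Agent.H437R2.z1_of_ne hne, norm_div, norm_mul, Complex.norm_real, Real.norm_eq_abs,
    abs_of_pos hT0, div_le_iff₀ hT0]
  have h1 : ‖(1 / 2 + t * Complex.I : ℂ) - 1‖ ≤ 2 * T := by
    have e : (1 / 2 + t * Complex.I : ℂ) - 1 = ((-(1 / 2) : ℝ) : ℂ) + t * Complex.I := by
      push_cast; ring
    rw [e]
    refine (norm_add_le _ _).trans ?_
    rw [norm_mul, Complex.norm_I, mul_one, Complex.norm_real, Complex.norm_real, Real.norm_eq_abs,
      Real.norm_eq_abs]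
    have h2 : |(-(1 / 2) : ℝ)| ≤ 1 := by
      rw [abs_le]
      constructor <;> norm_num
    have h3 : |t| ≤ T + 1 / 2 := by
      rw [abs_le]
      constructor <;> linarith
    linarith
  have h2 := mul_le_mul_of_nonneg_right h1 (norm_nonneg (riemannZeta (1 / 2 + t * Complex.I)))
  linarith

lemma z1_low {T : ℝ} (hT : 4 ≤ T) :
    ‖riemannZeta (1 / 2 + T * Complex.I)‖ ≤ ‖riemannZeta₁ (1 / 2 + T * Complex.I) / T‖ := by
  have hT0 : 0 < T := by linarith
  have hne : (1 / 2 + T * Complex.I : ℂ) ≠ 1 := by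
    intro h
    have := congrArg Complex.im h
    simp at this
    linarith
  rw [Pool.Agent.H437R2.z1_of_ne hne, norm_div, norm_mul, Complex.norm_real, Real.norm_eq_abs,
    abs_of_pos hT0, le_div_iff₀ hT0]
  have h1 : T ≤ ‖(1 / 2 + T * Complex.I : ℂ) - 1‖ := by
    have h8 := Complex.abs_im_le_norm ((1 / 2 + T * Complex.I : ℂ) - 1)
    have h9 : ((1 / 2 + T * Complex.I : ℂ) - 1).im = T := by simp
    rw [h9, abs_of_pos hT0] at h8
    exact h8
  have h2 := mul_le_mul_of_nonneg_right h1 (norm_nonneg (riemannZeta (1 / 2 + T * Complex.I)))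
  linarith

/-- one improvement of the exponent -/
theorem zstep {θ : ℝ} (hθ : 0 < θ) (hθ2 : θ < 2 * π) : ∃ a β : ℝ, 0 < a ∧ 0 < β ∧
    β ≤ a ∧ ∀ (κ μ : ℝ) (V : Set ℝ), 0 ≤ κ → κ < μ → ZFine θ V →
    ZAdm V κ → ZAdm univ μ → ZAdm univ (μ - β * min (1 / 2) ((μ - κ) / a)) := by
  have hpi := Real.pi_pos
  obtain ⟨D, hD0, hdz⟩ := discZ
  set θ₁ : ℝ := (θ + 2 * π) / 2 with hθ₁
  have hθ₁0 : 0 < θ₁ := by rw [hθ₁]; positivity
  have hθ₁1 : θ < θ₁ := by rw [hθ₁]; linarith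
  have hθ₁2 : θ₁ < 2 * π := by rw [hθ₁]; linarith
  set δ : ℝ := (θ₁ - θ) / (2 * θ₁) with hδdef
  have hδ : 0 < δ := div_pos (by linarith) (by linarith)
  have hδ1 : δ ≤ 1 := by
    rw [hδdef, div_le_one (by linarith)]
    linarith
  have hδθ : (1 - δ) * θ₁ = (θ₁ + θ) / 2 := by
    rw [hδdef]; field_simp; ring
  set γ : ℝ := 2 / θ₁ - 1 / π with hγ
  have hγ0 : 0 < γ := by
    rw [hγ, sub_pos, div_lt_div_iff₀ hpi hθ₁0]
    linarith
  set W : ℝ := 1 + 8 / γ with hW
  have hW1 : 1 ≤ W := by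
    have : 0 < 8 / γ := by positivity
    linarith
  have hΛ : 0 < Real.log (6 / δ) := Real.log_pos (by
    rw [lt_div_iff₀ hδ]; linarith)
  set a : ℝ := 2 * Real.log (6 / δ) / θ₁ + γ with ha
  have ha0 : 0 < a := by positivity
  refine ⟨a, γ / 2, ha0, by positivity, ?_, ?_⟩
  · have : 0 < 2 * Real.log (6 / δ) / θ₁ := by positivity
    linarith
  intro κ μ V hκ hκμ hV hs hu ε hε
  obtain ⟨X₀, hX₀⟩ := hV
  obtain ⟨B₁, hB₁⟩ := hs (ε / 2) (by linarith)
  obtain ⟨B₂, hB₂⟩ := hu (ε / 2) (by linarith)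
  set R : ℝ := min (1 / 2) ((μ - κ) / a) with hRdef
  have hR : 0 < R := lt_min (by norm_num) (div_pos (by linarith) ha0)
  have hR1 : R ≤ 1 / 2 := min_le_left _ _
  have hR2 : R ≤ (μ - κ) / a := min_le_right _ _
  have hR3 : a * R ≤ μ - κ := by
    rw [le_div_iff₀ ha0] at hR2
    linarith
  set b : ℝ := max 1 (max |B₁| |B₂|) with hb
  have hb1 : 1 ≤ b := le_max_left _ _
  have hbB1 : |B₁| ≤ b := (le_max_left _ _).trans (le_max_right _ _)
  have hbB2 : |B₂| ≤ b := (le_max_right _ _).trans (le_max_right _ _)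
  have hlb : 0 ≤ Real.log b := Real.log_nonneg hb1
  have hl2 : 0 < Real.log 2 := Real.log_pos (by norm_num)
  have hl21 : Real.log 2 ≤ 1 := by
    have := Real.log_two_lt_d9; linarith
  set c₀ : ℝ := Real.log b + (μ + ε / 2) with hc₀
  set c : ℝ := c₀ + 1 with hc
  have hc0 : 0 ≤ c := by
    rw [hc, hc₀]
    linarith
  set G' : ℝ := c + 4 + D with hG
  set M : ℝ := 1 + 64 / (γ * θ₁) ^ 2 with hM
  have hM0 : 0 < M := by rw [hM]; positivity
  set ℓ₀ : ℝ := max 1 (max (θ₁ / R) ((θ₁ + θ) / (θ₁ - θ))) with hℓ₀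
  have hℓ1 : 1 ≤ ℓ₀ := le_max_left _ _
  have hℓ3 : θ₁ / R ≤ ℓ₀ := (le_max_left _ _).trans (le_max_right _ _)
  have hℓ4 : (θ₁ + θ) / (θ₁ - θ) ≤ ℓ₀ := (le_max_right _ _).trans (le_max_right _ _)
  set T₁ : ℝ := max (2 * W + 6) (max (|X₀| + 1) (Real.exp ℓ₀)) with hT₁
  have hT1a : 2 * W + 6 ≤ T₁ := le_max_left _ _
  have hT1b : |X₀| + 1 ≤ T₁ := (le_max_left _ _).trans (le_max_right _ _)
  have hT1c : Real.exp ℓ₀ ≤ T₁ := (le_max_right _ _).trans (le_max_right _ _)
  have hgen : ∀ (e B T x : ℝ), 0 ≤ e → e ≤ μ + ε / 2 → |B| ≤ b → T₁ ≤ T → |x - T| ≤ W →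
      ‖riemannZeta (1 / 2 + x * Complex.I)‖ ≤ B * x ^ e →
      ‖riemannZeta (1 / 2 + x * Complex.I)‖ ≤ Real.exp (e * Real.log T + c₀) := by
    intro e B T x he heμ hB hT hx h
    have hx' := abs_le.1 hx
    have hx0 : 0 < x := by linarith
    have hT0 : 0 < T := by linarith
    have h1 : Real.log x ≤ Real.log T + 1 := by
      have h4 : Real.log x ≤ Real.log (T * 2) := Real.log_le_log hx0 (by linarith)
      rw [Real.log_mul hT0.ne' (by norm_num)] at h4
      linarith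
    calc ‖riemannZeta (1 / 2 + x * Complex.I)‖ ≤ B * x ^ e := h
      _ ≤ b * x ^ e :=
          mul_le_mul_of_nonneg_right ((le_abs_self B).trans hB) (Real.rpow_nonneg hx0.le _)
      _ = Real.exp (Real.log b + e * Real.log x) := by
          rw [Real.exp_add, Real.exp_log (by linarith), Real.rpow_def_of_pos hx0]
          congr 2
          ring
      _ ≤ Real.exp (e * Real.log T + c₀) := by
          apply Real.exp_le_exp.2
          have h2 := mul_le_mul_of_nonneg_left h1 he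
          rw [hc₀]
          linarith
  have hγR : γ / 2 * R ≤ μ - κ := by
    have h1 : γ / 2 ≤ a := by
      have : 0 < 2 * Real.log (6 / δ) / θ₁ := by positivity
      linarith
    exact (mul_le_mul_of_nonneg_right h1 hR.le).trans hR3
  have hexp : 0 ≤ μ - γ / 2 * R + ε := by linarith
  refine ⟨max (M * Real.exp G') (36 * T₁ ^ 2), fun T hT2 _ => ?_⟩
  have hT0 : 0 < T := by linarith
  have hXe : 1 ≤ T ^ (μ - γ / 2 * R + ε) := Real.one_le_rpow (by linarith) hexp
  rcases lt_or_ge T T₁ with hlt | hge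
  · calc ‖riemannZeta (1 / 2 + T * Complex.I)‖ ≤ 36 * T ^ 2 := zcrude hT2
      _ ≤ 36 * T₁ ^ 2 := by
          have := pow_le_pow_left₀ hT0.le hlt.le 2
          linarith
      _ ≤ max (M * Real.exp G') (36 * T₁ ^ 2) := le_max_right _ _
      _ ≤ _ := le_mul_of_one_le_right (le_trans (by positivity) (le_max_right _ _)) hXe
  · have hT4 : 4 ≤ T := by linarith
    set ℓ : ℝ := Real.log T with hℓdef
    have hℓge : ℓ₀ ≤ ℓ := by
      rw [hℓdef, Real.le_log_iff_exp_le hT0]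
      linarith
    have hℓpos : 1 ≤ ℓ := hℓ1.trans hℓge
    have hRℓ : 1 ≤ R * ℓ / θ₁ := by
      have h1 : θ₁ / R ≤ ℓ := hℓ3.trans hℓge
      rw [div_le_iff₀ hR] at h1
      rw [le_div_iff₀ hθ₁0]
      linarith
    set n : ℕ := ⌊R * ℓ / θ₁⌋₊ with hn
    have hn1 : R * ℓ / θ₁ - 1 ≤ n := by
      have := Nat.lt_floor_add_one (R * ℓ / θ₁)
      rw [← hn] at this
      linarith
    have hn2 : (n : ℝ) ≤ R * ℓ / θ₁ := Nat.floor_le (by positivity)
    have hnpos : 1 ≤ n := Nat.one_le_floor_iff _ |>.2 hRℓ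
    have hnr : (1 : ℝ) ≤ n := by exact_mod_cast hnpos
    set h : ℝ := R / n with hh
    have hhR : R = n * h := by rw [hh]; field_simp
    have hh0 : 0 < h := by rw [hh]; positivity
    have hhθ : θ₁ ≤ h * ℓ := by
      have h1 : (n : ℝ) * θ₁ ≤ R * ℓ := by
        rwa [le_div_iff₀ hθ₁0] at hn2
      rw [hh, div_mul_eq_mul_div, le_div_iff₀ (by linarith)]
      linarith
    have hnode : ∀ j : ℕ, ∃ x : ℝ, j < n + n →
        (-R + j * h + δ * h / 2 ≤ x ∧ x ≤ -R + (j + 1) * h - δ * h / 2) ∧ T + x ∈ V := by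
      intro j
      by_cases hj : j < n + n
      · have hjr : (j : ℝ) + 1 ≤ n + n := by exact_mod_cast hj
        have hj0 : (0 : ℝ) ≤ j := Nat.cast_nonneg j
        have hδh : 0 < δ * h := by positivity
        have hδh1 : δ * h ≤ h := mul_le_of_le_one_left hh0.le hδ1
        have hjh : 0 ≤ (j : ℝ) * h := by positivity
        have hjh2 : ((j : ℝ) + 1) * h ≤ 2 * R := by
          rw [hhR]
          linarith [mul_le_mul_of_nonneg_right hjr hh0.le]
        set t : ℝ := T + (-R + j * h + δ * h / 2) with ht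
        have htT : T - 1 / 2 ≤ t := by
          rw [ht]; linarith
        have h5 : X₀ ≤ t := by
          have := le_abs_self X₀
          linarith
        obtain ⟨v, hv, hv1, hv2⟩ := hX₀ t h5
        have ht0 : 0 < t := by linarith
        have h3 : ℓ - 1 ≤ Real.log t := by
          have h4 : Real.log (T / 2) ≤ Real.log t := Real.log_le_log (by linarith) (by linarith)
          rw [Real.log_div hT0.ne' (by norm_num)] at h4
          linarith
        have hlt : 0 < Real.log t := Real.log_pos (by linarith)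
        have h6 : θ / Real.log t ≤ (1 - δ) * h := by
          rw [div_le_iff₀ hlt]
          have h7 : (θ₁ + θ) ≤ ℓ * (θ₁ - θ) := by
            have := hℓ4.trans hℓge
            rwa [div_le_iff₀ (by linarith)] at this
          have hδ' : 0 ≤ 1 - δ := by linarith
          have h8 : (1 - δ) * θ₁ ≤ (1 - δ) * (h * ℓ) := mul_le_mul_of_nonneg_left hhθ hδ'
          have hℓpos' : 0 < ℓ := by linarith
          have h9 : θ * ℓ ≤ (1 - δ) * θ₁ * (ℓ - 1) := by
            rw [hδθ]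
            linarith
          have hℓD : 0 ≤ ℓ - 1 := by linarith
          have h10 : θ * ℓ ≤ (1 - δ) * h * (ℓ - 1) * ℓ := by
            calc θ * ℓ ≤ (1 - δ) * θ₁ * (ℓ - 1) := h9
              _ ≤ (1 - δ) * (h * ℓ) * (ℓ - 1) := mul_le_mul_of_nonneg_right h8 hℓD
              _ = (1 - δ) * h * (ℓ - 1) * ℓ := by ring
          have h11 : θ ≤ (1 - δ) * h * (ℓ - 1) := le_of_mul_le_mul_right h10 hℓpos'
          exact h11.trans (mul_le_mul_of_nonneg_left h3 (by positivity))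
        refine ⟨v - T, fun _ => ⟨⟨by linarith, ?_⟩, ?_⟩⟩
        · have e : -R + ((j : ℝ) + 1) * h - δ * h / 2 =
              (-R + j * h + δ * h / 2) + (1 - δ) * h := by ring
          rw [e]
          linarith
        · rw [add_sub_cancel]
          exact hv
      · exact ⟨0, fun h => absurd h hj⟩
    choose x hx using hnode
    have hxle : ∀ j < n + n, |T + x j - T| ≤ 1 / 2 := by
      intro j hj
      have hjr : (j : ℝ) + 1 ≤ n + n := by exact_mod_cast hj
      have hj0 : (0 : ℝ) ≤ j := Nat.cast_nonneg j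
      obtain ⟨⟨h1, h2⟩, _⟩ := hx j hj
      have hδh : 0 < δ * h := by positivity
      have hjh : 0 ≤ (j : ℝ) * h := by positivity
      have hjh2 : ((j : ℝ) + 1) * h ≤ 2 * R := by
        rw [hhR]
        linarith [mul_le_mul_of_nonneg_right hjr hh0.le]
      rw [add_sub_cancel_left, abs_le]
      constructor <;> linarith
    have hk : ∀ y : ℝ, |y - T| ≤ W →
        log⁺ ‖riemannZeta (1 / 2 + (y : ℂ) * Complex.I)‖ ≤ (μ + ε / 2) * ℓ + c := by
      intro y hy
      have hy' := abs_le.1 hy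
      have h1 := hgen (μ + ε / 2) B₂ T y (by linarith) le_rfl hbB2 hge hy
        (hB₂ y (by linarith) (mem_univ _))
      have h2 := posLog_le_posLog (norm_nonneg _) h1
      have h3 : log⁺ (Real.exp ((μ + ε / 2) * Real.log T + c₀)) =
          (μ + ε / 2) * Real.log T + c₀ := by
        rw [posLog_eq_log, Real.log_exp]
        rw [abs_of_pos (Real.exp_pos _)]
        apply Real.one_le_exp
        have h4 : 0 ≤ Real.log T := by linarith
        have h5 : 0 ≤ μ + ε / 2 := by linarith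
        have : 0 ≤ c₀ := by rw [hc₀]; linarith
        positivity
      rw [h3] at h2
      change _ ≤ (μ + ε / 2) * ℓ + c₀ at h2
      linarith
    have hW2 : 0 < 2 * W - 1 := by linarith
    have hq : 4 * R * ℓ / (2 * W - 1) ≤ γ / 4 * (R * ℓ) := by
      rw [div_le_iff₀ hW2, hW]
      have e : γ / 4 * (R * ℓ) * (2 * (1 + 8 / γ) - 1) = γ / 4 * (R * ℓ) + 4 * R * ℓ := by
        field_simp
        ring
      rw [e]
      have : 0 ≤ γ / 4 * (R * ℓ) := by positivity
      linarith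
    have hk0 : 0 ≤ (μ + ε / 2) * ℓ + c := by
      have h5 : 0 ≤ μ + ε / 2 := by linarith
      positivity
    have hcore := core3 (F := fun s => riemannZeta₁ s / T) (differentiable_riemannZeta₁.div_const _)
      (T := T) (ℓ := ℓ) (D := D) (q := 4 * R * ℓ / (2 * W - 1)) (by linarith) hD0
      (R := R) (κ := κ + ε / 2) (μ := μ + ε / 2) (c := c)
      (δ := δ) (θ₁ := θ₁) (γ := γ) (h := h) hR (by linarith) hc0 hδ hδ1 hθ₁0 hγ0 hγ
      (by linarith) (by positivity) hq (fun z hz => hdz T ((μ + ε / 2) * ℓ + c) R W hT4 hk0 hW1 hk hR.le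
        hR1 z hz) hnpos hn1 hn2 hhR x (fun j hj => (hx j hj).1) (by
        intro j hj
        have h1 := z1_up hT4 (hxle j hj)
        have h2 := abs_le.1 (hxle j hj)
        have h3 := hgen (κ + ε / 2) B₁ T (T + x j) (by linarith) (by linarith) hbB1 hge
          ((hxle j hj).trans (by linarith)) (hB₁ (T + x j) (by linarith) (hx j hj).2)
        refine h1.trans ?_
        have h4 : Real.exp ((κ + ε / 2) * ℓ + c) = Real.exp 1 * Real.exp ((κ + ε / 2) * ℓ + c₀) := by
          rw [← Real.exp_add, hc]; congr 1; ring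
        rw [h4]
        have h5 : (2 : ℝ) ≤ Real.exp 1 := by linarith [Real.exp_one_gt_d9]
        exact mul_le_mul h5 h3 (norm_nonneg _) (Real.exp_pos _).le)
    refine (z1_low hT4).trans (hcore.trans ?_)
    have hfin : Real.exp ((μ + ε / 2 - γ / 2 * R) * ℓ + G') ≤
        Real.exp G' * T ^ (μ - γ / 2 * R + ε) := by
      rw [Real.exp_add, mul_comm]
      refine mul_le_mul_of_nonneg_left ?_ (Real.exp_pos _).le
      rw [Real.rpow_def_of_pos hT0]
      apply Real.exp_le_exp.2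
      change (μ + ε / 2 - γ / 2 * R) * ℓ ≤ ℓ * (μ - γ / 2 * R + ε)
      linarith [mul_nonneg hε.le (by linarith : (0:ℝ) ≤ ℓ)]
    calc M * Real.exp ((μ + ε / 2 - γ / 2 * R) * ℓ + G')
        ≤ M * (Real.exp G' * T ^ (μ - γ / 2 * R + ε)) :=
          mul_le_mul_of_nonneg_left hfin hM0.le
      _ = (M * Real.exp G') * T ^ (μ - γ / 2 * R + ε) := by ring
      _ ≤ max (M * Real.exp G') (36 * T₁ ^ 2) * T ^ (μ - γ / 2 * R + ε) :=
          mul_le_mul_of_nonneg_right (le_max_left _ _) (by positivity)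

/-- **sampling for the zeta function** -/
theorem zsample {θ : ℝ} (hθ : 0 < θ) (hθ2 : θ < 2 * π) {κ : ℝ} (hκ : 0 ≤ κ)
    {V : Set ℝ} (hV : ZFine θ V) (hs : ZAdm V κ) : ZAdm univ κ := by
  obtain ⟨a, β, ha, hβ, hβa, hstep⟩ := zstep hθ hθ2
  have hmono : ∀ μ μ' : ℝ, μ ≤ μ' → ZAdm univ μ → ZAdm univ μ' := by
    intro μ μ' h h1 ε hε
    obtain ⟨B, hB⟩ := h1 ε hε
    refine ⟨max B 0, fun t ht2 ht => (hB t ht2 ht).trans ?_⟩
    have h2 : t ^ (μ + ε) ≤ t ^ (μ' + ε) :=
      Real.rpow_le_rpow_of_exponent_le (by linarith) (by linarith)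
    exact mul_le_mul (le_max_left _ _) h2 (Real.rpow_nonneg (by linarith) _) (le_max_right _ _)
  have h1 : ZAdm univ 2 := by
    intro ε hε
    refine ⟨36, fun t ht _ => (zcrude ht).trans ?_⟩
    refine mul_le_mul_of_nonneg_left ?_ (by norm_num)
    have h2 : t ^ (2:ℕ) = t ^ (2 : ℝ) := by
      rw [← Real.rpow_natCast]; norm_num
    rw [h2]
    exact Real.rpow_le_rpow_of_exponent_le (by linarith) (by linarith)
  set S : Set ℝ := {μ : ℝ | κ ≤ μ ∧ ZAdm univ μ} with hS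
  have hne : S.Nonempty := ⟨max κ 2, le_max_left _ _, hmono 2 _ (le_max_right _ _) h1⟩
  have hbd : BddBelow S := ⟨κ, fun μ hμ => hμ.1⟩
  set q : ℝ := sInf S with hq
  have hκq : κ ≤ q := le_csInf hne fun μ hμ => hμ.1
  have hqκ : q ≤ κ := by
    by_contra hcon
    push Not at hcon
    set d : ℝ := β * min (1 / 2) ((q - κ) / a) with hd
    have hd0 : 0 < d := mul_pos hβ (lt_min (by norm_num) (div_pos (by linarith) ha))
    obtain ⟨μ, hμ, hμ2⟩ := exists_lt_of_csInf_lt hne (show sInf S < q + d by rw [← hq]; linarith)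
    have hqμ : q ≤ μ := csInf_le hbd hμ
    have h2 := hstep κ μ V hκ (lt_of_lt_of_le hcon hqμ) hV hs hμ.2
    have h3 : d ≤ β * min (1 / 2) ((μ - κ) / a) := by
      rw [hd]
      refine mul_le_mul_of_nonneg_left (min_le_min_left _ ?_) hβ.le
      exact div_le_div_of_nonneg_right (by linarith) ha.le
    have h4 : β * min (1 / 2) ((μ - κ) / a) ≤ μ - κ := by
      have h5 : β * min (1 / 2) ((μ - κ) / a) ≤ a * ((μ - κ) / a) :=
        mul_le_mul hβa (min_le_right _ _) (le_min (by norm_num) (div_nonneg (by linarith) ha.le)) ha.le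
      rwa [mul_div_cancel₀ _ ha.ne'] at h5
    have h5 : μ - β * min (1 / 2) ((μ - κ) / a) ∈ S := ⟨by linarith, h2⟩
    have h6 := csInf_le hbd h5
    rw [← hq] at h6
    linarith
  intro ε hε
  obtain ⟨μ, hμ, hμ2⟩ := exists_lt_of_csInf_lt hne (show sInf S < κ + ε / 2 by rw [← hq]; linarith)
  obtain ⟨B, hB⟩ := hmono μ (κ + ε / 2) hμ2.le hμ.2 (ε / 2) (by linarith)
  refine ⟨B, fun t ht2 ht => ?_⟩
  have := hB t ht2 ht
  rwa [add_assoc, add_halves] at this

end Pool.Agent.Q32.Smp
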